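import Pool.Agent.R340.MI.Sys

set_option autoImplicit false

/-!
The inequality for one exponent in terms of rational exponents, and its form for exponents whose
differences and sums have a prime denominator.
-/

open Finset

namespace Pool.Agent.R340.MI

open Pool.Agent.TH571.PCV Pool.Agent.Y227.SS Pool.Agent.W432.PC

universe u

variable {r : ℕ}

/-- The right hand side minus the left hand side of the inequality for the exponent number `k` at the
point `x`; `y`, `z` are the other two points. -/
def defect (lam : Fin 3 → Fin r → ℚ) (x y z : Fin 3) (k : Fin r) : ℚ :=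
  (r : ℚ) ^ 2 + ∑ i, ∑ j, gam (lam x i - lam x j) +
    2 * ∑ i, ∑ j, gam (lam x k + lam y i + lam z j) -
    ∑ i, ∑ j, gam (lam y i - lam y j) - ∑ i, ∑ j, gam (lam z i - lam z j) -
    2 * r * ∑ l, gam (lam x k - lam x l)

/-- The exponents at the point `x` are in at least three classes modulo the integers, two of them
different from the class of the exponent number `k`. -/
def Three (lam : Fin 3 → Fin r → ℚ) (x : Fin 3) (k : Fin r) : Prop :=
  ∃ i j, (lam x k - lam x i).den ≠ 1 ∧ (lam x k - lam x j).den ≠ 1 ∧ (lam x i - lam x j).den ≠ 1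

/-- The inequality is violated. -/
def Violated (lam : Fin 3 → Fin r → ℚ) (x y z : Fin 3) (k : Fin r) : Prop :=
  defect lam x y z k < 0 ∨ defect lam x y z k ≤ 0 ∧ Three lam x k

lemma den_ne_of_not_dvd {N : ℕ} (hN : 0 < N) {z : ℤ} (h : (((z : ℤ) : ℚ) / N).den ≠ 1) :
    ¬ (N : ℤ) ∣ z := by
  have hNq : (N : ℚ) ≠ 0 := by exact_mod_cast hN.ne'
  rintro ⟨k, hk⟩
  apply h
  have h1 : ((z : ℤ) : ℚ) / N = ((k : ℤ) : ℚ) := by
    rw [hk]
    push_cast
    field_simp
  rw [h1]
  exact Rat.den_intCast k

/-- The inequality for all conjugates of stable weights. -/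
theorem Good.not_violated {N : ℕ} (hN : 0 < N) {E : Fin 3 → Fin r → ℤ} (h : Good N E)
    {lam : Fin 3 → Fin r → ℚ} (hE : ∀ i l, lam i l = (E i l : ℚ) / N) {x y z : Fin 3}
    (hxy : x ≠ y) (hyz : y ≠ z) (hxz : x ≠ z) (k : Fin r) : ¬ Violated lam x y z k := by
  have key := h.single hN hxy hyz hxz k
  have e1 : ∀ x i j, lam x i - lam x j = ((E x i - E x j : ℤ) : ℚ) / N := by
    intro x i j
    rw [hE, hE]
    push_cast
    ring
  have e2 : ∀ i j, lam x k + lam y i + lam z j = ((E x k + E y i + E z j : ℤ) : ℚ) / N := by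
    intro i j
    rw [hE, hE, hE]
    push_cast
    ring
  rintro (h1 | ⟨h1, i, j, hi, hj, hij⟩)
  · unfold defect at h1
    simp only [e1, e2] at h1
    linarith [key.1]
  · unfold defect at h1
    simp only [e1, e2] at h1
    rw [e1] at hi hj hij
    have := key.2 ⟨i, j, den_ne_of_not_dvd hN hi, den_ne_of_not_dvd hN hj,
      den_ne_of_not_dvd hN hij⟩
    linarith

/-- The theorem for systems. -/
theorem sys_main {R : Type u} [CommRing R] [IsDomain R] [CharZero R] [Algebra.FiniteType ℤ R]
    (α : Fin 2 → R) (hα : ∀ i j, i ≠ j → IsUnit (α i - α j))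
    (A : Fin 2 → Matrix (Fin r) (Fin r) R) (hirr : AbsIrreducible α A)
    (lam : Fin 3 → Fin r → ℚ) (hlam : ∀ j : Fin 2, HasExponents (A j) (lam j.castSucc))
    (hphi : HasExponents (∑ j, A j) (fun l => -lam 2 l)) {x y z : Fin 3}
    (hxy : x ≠ y) (hyz : y ≠ z) (hxz : x ≠ z) (k : Fin r) (hv : Violated lam x y z k) (N : ℕ)
    (hN : 0 < N) (hNlam : ∀ i l, ∃ m : ℤ, (N : ℚ) * lam i l = m) : BadSys α A N := by
  have hNq : (N : ℚ) ≠ 0 := by exact_mod_cast hN.ne'
  choose E hE using hNlam
  have hE' : ∀ i l, lam i l = (E i l : ℚ) / N := by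
    intro i l
    rw [← hE]
    field_simp
  by_contra hbad
  refine (good_of_not_bad α hα A hirr hN E (fun j => ?_) ?_ hbad).not_violated hN hE' hxy hyz hxz
    k hv
  · have h1 : (fun l => (E j.castSucc l : ℚ) / N) = lam j.castSucc := funext fun l => (hE' _ l).symm
    rw [h1]
    exact hlam j
  · have h1 : (fun l => -((E 2 l : ℚ) / N)) = fun l => -lam 2 l := funext fun l => by rw [hE']
    rw [h1]
    exact hphi

/-- A common denominator. -/
lemma exists_den (lam : Fin 3 → Fin r → ℚ) :
    ∃ N : ℕ, 0 < N ∧ ∀ i l, ∃ m : ℤ, (N : ℚ) * lam i l = m := by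
  refine ⟨∏ i, ∏ l, (lam i l).den, ?_, ?_⟩
  · exact prod_pos fun i _ => prod_pos fun l _ => (lam i l).den_pos
  · intro i l
    obtain ⟨k, hk⟩ : (lam i l).den ∣ ∏ i, ∏ l, (lam i l).den :=
      (dvd_prod_of_mem (fun l => (lam i l).den) (mem_univ l)).trans
        (dvd_prod_of_mem (fun i => ∏ l, (lam i l).den) (mem_univ i))
    refine ⟨k * (lam i l).num, ?_⟩
    rw [hk]
    push_cast
    have := Rat.den_mul_eq_num (lam i l)
    rw [mul_comm ((lam i l).den : ℚ) k, mul_assoc, this]

/-- `gam` for a prime denominator. -/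
lemma gam_prime {p : ℕ} (hp : p.Prime) {x : ℚ} (hx : ∃ z : ℤ, (p : ℚ) * x = z) :
    gam x = -(1 / p) + (1 + 1 / p) * (if x.den = 1 then 1 else 0) := by
  have hpq : (0 : ℚ) < p := by exact_mod_cast hp.pos
  split_ifs with h
  · have h1 : x = ((x.num : ℤ) : ℚ) := (Rat.coe_int_num_of_den_eq_one h).symm
    rw [h1, gam_int]
    ring
  · obtain ⟨z, hz⟩ := hx
    have h1 : x = (z : ℚ) / (p : ℤ) := by push_cast; rw [← hz]; field_simp
    have h2 : x.den ∣ p := by
      have := Rat.den_dvd z (p : ℤ)
      rw [Rat.divInt_eq_div, ← h1] at this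
      exact_mod_cast this
    have h3 : x.den = p := (hp.eq_one_or_self_of_dvd _ h2).resolve_left h
    unfold gam
    rw [h3, hp.primeFactors, prod_singleton]
    field_simp
    ring

/-- The number of the exponents congruent to the exponent number `k`. -/
def mult (lam : Fin 3 → Fin r → ℚ) (x : Fin 3) (k : Fin r) : ℕ :=
  (univ.filter fun l => (lam x k - lam x l).den = 1).card

/-- The number of ordered pairs of congruent exponents. -/
def pairs (lam : Fin 3 → Fin r → ℚ) (x : Fin 3) : ℕ :=
  (univ.filter fun t : Fin r × Fin r => (lam x t.1 - lam x t.2).den = 1).card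

/-- The number of the integral sums of the exponent number `k` at `x` and of exponents at `y`, `z`. -/
def sums (lam : Fin 3 → Fin r → ℚ) (x y z : Fin 3) (k : Fin r) : ℕ :=
  (univ.filter fun t : Fin r × Fin r => (lam x k + lam y t.1 + lam z t.2).den = 1).card

/-- The defect for a prime denominator. -/
theorem defect_prime {p : ℕ} (hp : p.Prime) (lam : Fin 3 → Fin r → ℚ) (x y z : Fin 3) (k : Fin r)
    (h1 : ∀ i l l', ∃ m : ℤ, (p : ℚ) * (lam i l - lam i l') = m)
    (h2 : ∀ l l', ∃ m : ℤ, (p : ℚ) * (lam x k + lam y l + lam z l') = m) :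
    defect lam x y z k = (1 + 1 / p) * ((r : ℚ) ^ 2 + pairs lam x + 2 * sums lam x y z k -
      pairs lam y - pairs lam z - 2 * r * mult lam x k) := by
  have hpq : (p : ℚ) ≠ 0 := by exact_mod_cast hp.ne_zero
  have e1 : ∀ x, ∑ i, ∑ j, gam (lam x i - lam x j) =
      -(1 / p) * (r : ℚ) ^ 2 + (1 + 1 / p) * pairs lam x := by
    intro x
    have h3 : ∀ i : Fin r, ∑ j, gam (lam x i - lam x j) = -(1 / p) * r +
        (1 + 1 / p) * ∑ j, (if (lam x i - lam x j).den = 1 then 1 else 0) := by
      intro i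
      rw [sum_congr rfl fun j _ => gam_prime hp (h1 x i j), sum_add_distrib, sum_const, card_univ,
        Fintype.card_fin, nsmul_eq_mul, ← mul_sum]
      ring
    have h4 : (pairs lam x : ℚ) = ∑ i, ∑ j, (if (lam x i - lam x j).den = 1 then 1 else 0) := by
      unfold pairs
      rw [card_filter]
      push_cast
      rw [Fintype.sum_prod_type' (fun i j => if (lam x i - lam x j).den = 1 then (1 : ℚ) else 0)]
    rw [sum_congr rfl fun i _ => h3 i, sum_add_distrib, sum_const, card_univ, Fintype.card_fin,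
      nsmul_eq_mul, ← mul_sum, h4]
    ring
  have e2 : ∑ i, ∑ j, gam (lam x k + lam y i + lam z j) =
      -(1 / p) * (r : ℚ) ^ 2 + (1 + 1 / p) * sums lam x y z k := by
    have h3 : ∀ i : Fin r, ∑ j, gam (lam x k + lam y i + lam z j) = -(1 / p) * r +
        (1 + 1 / p) * ∑ j, (if (lam x k + lam y i + lam z j).den = 1 then 1 else 0) := by
      intro i
      rw [sum_congr rfl fun j _ => gam_prime hp (h2 i j), sum_add_distrib, sum_const, card_univ,
        Fintype.card_fin, nsmul_eq_mul, ← mul_sum]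
      ring
    have h4 : (sums lam x y z k : ℚ) =
        ∑ i, ∑ j, (if (lam x k + lam y i + lam z j).den = 1 then 1 else 0) := by
      unfold sums
      rw [card_filter]
      push_cast
      rw [Fintype.sum_prod_type'
        (fun i j => if (lam x k + lam y i + lam z j).den = 1 then (1 : ℚ) else 0)]
    rw [sum_congr rfl fun i _ => h3 i, sum_add_distrib, sum_const, card_univ, Fintype.card_fin,
      nsmul_eq_mul, ← mul_sum, h4]
    ring
  have e3 : ∑ l, gam (lam x k - lam x l) = -(1 / p) * r + (1 + 1 / p) * mult lam x k := by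
    rw [sum_congr rfl fun j _ => gam_prime hp (h1 x k j), sum_add_distrib, sum_const, card_univ,
      Fintype.card_fin, nsmul_eq_mul, ← mul_sum]
    unfold mult
    rw [card_filter]
    push_cast
    ring
  unfold defect
  rw [e1, e1, e1, e2, e3]
  ring

/-- The condition for a prime denominator. -/
theorem violated_prime {p : ℕ} (hp : p.Prime) (lam : Fin 3 → Fin r → ℚ) (x y z : Fin 3) (k : Fin r)
    (h1 : ∀ i l l', ∃ m : ℤ, (p : ℚ) * (lam i l - lam i l') = m)
    (h2 : ∀ l l', ∃ m : ℤ, (p : ℚ) * (lam x k + lam y l + lam z l') = m)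
    (h : r ^ 2 + pairs lam x + 2 * sums lam x y z k < pairs lam y + pairs lam z +
        2 * r * mult lam x k ∨
      r ^ 2 + pairs lam x + 2 * sums lam x y z k ≤ pairs lam y + pairs lam z +
        2 * r * mult lam x k ∧ Three lam x k) : Violated lam x y z k := by
  have hpq : (0 : ℚ) < p := by exact_mod_cast hp.pos
  have hc : (0 : ℚ) < 1 + 1 / p := by positivity
  unfold Violated
  rw [defect_prime hp lam x y z k h1 h2]
  rcases h with h | ⟨h, h3⟩
  · left
    apply mul_neg_of_pos_of_neg hc
    have : ((r ^ 2 + pairs lam x + 2 * sums lam x y z k : ℕ) : ℚ) <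
      ((pairs lam y + pairs lam z + 2 * r * mult lam x k : ℕ) : ℚ) := by exact_mod_cast h
    push_cast at this
    linarith
  · right
    refine ⟨mul_nonpos_of_nonneg_of_nonpos hc.le ?_, h3⟩
    have : ((r ^ 2 + pairs lam x + 2 * sums lam x y z k : ℕ) : ℚ) ≤
      ((pairs lam y + pairs lam z + 2 * r * mult lam x k : ℕ) : ℚ) := by exact_mod_cast h
    push_cast at this
    linarith

end Pool.Agent.R340.MI
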