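import Pool.Agent.R340.MI.Swap
import Pool.Agent.R340.HK.Nonres

set_option autoImplicit false

/-!
Three points: the exponents all of whose conjugates are the weights of stable parabolic bundles.
-/

open Polynomial Finset

namespace Pool.Agent.R340.MI

open Pool.Agent.Y227.SS Pool.Agent.R340.HK

variable {r N : ℕ}

/-- All the conjugates of the exponents `E i l / N` (infinity is the last point, with the exponents
of the opposite sign) are the weights of stable parabolic bundles. -/
def Good (N : ℕ) (E : Fin 3 → Fin r → ℤ) : Prop :=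
  ∀ a : ℤ, IsCoprime a (N : ℤ) →
    StableWeights ℂ (fun (j : Fin 2) l => (a : ℝ) * ((E j.castSucc l : ℝ) / N))
      (fun l => (a : ℝ) * (((-E 2 l : ℤ) : ℝ) / N))

lemma Good.congr (hN : 0 < N) {E E' : Fin 3 → Fin r → ℤ} (h : Good N E)
    (hE : ∀ i l, (N : ℤ) ∣ E i l - E' i l) : Good N E' := by
  have hNR : (N : ℝ) ≠ 0 := by exact_mod_cast hN.ne'
  intro a ha
  refine stableWeights_congr (h a ha) (fun j l => ?_) (fun l => ?_)
  · obtain ⟨k, hk⟩ := hE j.castSucc l
    refine ⟨a * k, ?_⟩
    have h1 : (E j.castSucc l : ℝ) = E' j.castSucc l + N * k := by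
      have : E j.castSucc l = E' j.castSucc l + N * k := by linarith
      exact_mod_cast this
    rw [h1]
    push_cast
    field_simp
  · obtain ⟨k, hk⟩ := hE 2 l
    refine ⟨-(a * k), ?_⟩
    have h1 : (E 2 l : ℝ) = E' 2 l + N * k := by
      have : E 2 l = E' 2 l + N * k := by linarith
      exact_mod_cast this
    push_cast
    rw [h1]
    field_simp
    ring

/-- Every point can be made the first one. -/
lemma Good.swap {E : Fin 3 → Fin r → ℤ} (h : Good N E) (i : Fin 3) :
    Good N (fun k => E (Equiv.swap 0 i k)) := by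
  intro a ha
  have h0 := h a ha
  have hi : i = 0 ∨ i = 1 ∨ i = 2 := by
    fin_cases i <;> simp
  rcases hi with rfl | rfl | rfl
  · simp only [Equiv.swap_self, Equiv.refl_apply]
    exact h0
  · have h1 := stableWeights_drop h0 (Equiv.swap (0 : Fin 2) 1).toEmbedding (fun j hj => by
      exact absurd ⟨(Equiv.swap (0 : Fin 2) 1).symm j, by simp⟩ hj)
    have e2 : (Equiv.swap (0 : Fin 3) 1) 2 = 2 := by decide
    beta_reduce
    rw [e2]
    refine stableWeights_congr h1 (fun j l => ⟨0, ?_⟩) (fun l => ⟨0, by simp⟩)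
    have hj : j = 0 ∨ j = 1 := by omega
    rcases hj with rfl | rfl
    · have e : (Equiv.swap (0 : Fin 3) 1) (Fin.castSucc 0) = 1 := by decide
      have e' : Fin.castSucc ((Equiv.swap (0 : Fin 2) 1).toEmbedding 0) = 1 := by decide
      rw [e, e']
      simp
    · have e : (Equiv.swap (0 : Fin 3) 1) (Fin.castSucc 1) = 0 := by decide
      have e' : Fin.castSucc ((Equiv.swap (0 : Fin 2) 1).toEmbedding 1) = 0 := by decide
      rw [e, e']
      simp
  · have h1 := stableWeights_swap h0 0
    have e2 : (Equiv.swap (0 : Fin 3) 2) 2 = 0 := by decide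
    beta_reduce
    rw [e2]
    refine stableWeights_congr h1 (fun j l => ⟨0, ?_⟩) (fun l => ⟨0, ?_⟩)
    · have hj : j = 0 ∨ j = 1 := by omega
      rcases hj with rfl | rfl
      · have e : (Equiv.swap (0 : Fin 3) 2) (Fin.castSucc 0) = 2 := by decide
        rw [e, Function.update_self]
        push_cast
        ring
      · have e : (Equiv.swap (0 : Fin 3) 2) (Fin.castSucc 1) = 1 := by decide
        have e' : Fin.castSucc (1 : Fin 2) = 1 := by decide
        rw [e, Function.update_of_ne (by decide), e']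
        simp
    · have e' : Fin.castSucc (0 : Fin 2) = 0 := by decide
      rw [e']
      push_cast
      ring

/-- The sum of the weights of a stable bundle is an integer. -/
lemma stableWeights_sum {K : Type*} [Field K] {n : ℕ} {x : Fin n → Fin r → ℝ} {y : Fin r → ℝ}
    (h : StableWeights K x y) : ∃ m : ℤ, ∑ j, ∑ l, x j l = ∑ l, y l + m := by
  obtain ⟨β, P, w, e, -, hx, ⟨ρ, hρ⟩, hpar⟩ := StableWeights.par h
  choose σ hσ using hx
  choose g hg using hσ
  choose k hk using hρ
  refine ⟨∑ l, k l - ∑ j, ∑ l, g j l, ?_⟩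
  have e1 : ∀ j, ∑ l, w j l = ∑ l, x j l + ((∑ l, g j l : ℤ) : ℝ) := by
    intro j
    push_cast
    rw [← Equiv.sum_comp (σ j) (fun l => x j l), ← sum_add_distrib]
    exact sum_congr rfl fun l _ => hg j l
  have e2 : ∑ l, e l = ∑ l, y l + ((∑ l, k l : ℤ) : ℝ) := by
    push_cast
    rw [← Equiv.sum_comp ρ (fun l => y l), ← sum_add_distrib]
    exact sum_congr rfl fun l _ => hk l
  have h1 := hpar.sum
  rw [sum_congr rfl fun j _ => e1 j, sum_add_distrib, e2] at h1
  push_cast at h1 ⊢
  linarith

/-- The sum of the exponents is divisible by `N`. -/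
lemma Good.sum (hN : 0 < N) {E : Fin 3 → Fin r → ℤ} (h : Good N E) :
    (N : ℤ) ∣ ∑ i, ∑ l, E i l := by
  have hNR : (N : ℝ) ≠ 0 := by exact_mod_cast hN.ne'
  obtain ⟨m, hm⟩ := stableWeights_sum (h 1 isCoprime_one_left)
  refine ⟨m, ?_⟩
  rw [Fin.sum_univ_two] at hm
  have e0 : Fin.castSucc (0 : Fin 2) = 0 := by decide
  have e1 : Fin.castSucc (1 : Fin 2) = 1 := by decide
  simp only [e0, e1, Int.cast_one, one_mul, ← sum_div] at hm
  push_cast at hm
  rw [sum_neg_distrib] at hm
  field_simp at hm
  rw [Fin.sum_univ_three]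
  have h1 : ((∑ l, E 0 l + ∑ l, E 1 l + ∑ l, E 2 l : ℤ) : ℝ) = ((N * m : ℤ) : ℝ) := by
    push_cast
    linarith
  exact_mod_cast h1

end Pool.Agent.R340.MI
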