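import Pool.Agent.R340.MI.SysTwist
import Pool.Agent.R340.HK.Wrap

set_option autoImplicit false

/-!
Operators with three points with non-integral exponents.
-/

open Polynomial Finset

namespace Pool.Agent.R340.MI

open Pool.Agent.Y227.SS Pool.Agent.W432.WB Pool.Agent.W432.HK Pool.Agent.Y227.SO
open Pool.Agent.R340.HK (stableWeights_shift stableWeights_congr stableWeights_drop cnt)
open Pool.Agent.R340.SY (exists_lift expo)

variable {m r : ℕ}

/-- The weights at all the points, with the sign changed at infinity. -/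
def ex (x : Fin m → Fin r → ℝ) (y : Fin r → ℝ) : Option (Fin m) → Fin r → ℝ
  | some j => x j
  | none => fun l => -y l

/-- Three points, infinity being the last one. -/
lemma stable_three_inf {K : Type*} [Field K] {x : Fin m → Fin r → ℝ} {y : Fin r → ℝ}
    (h : StableWeights K x y) (P : Fin 3 ↪ Option (Fin m)) (h2 : P 2 = none)
    (hint : ∀ p, p ∉ Set.range P → ∀ l, ∃ z : ℤ, ex x y p l = z) :
    StableWeights K (fun j : Fin 2 => ex x y (P j.castSucc)) (fun l => -ex x y (P 2) l) := by
  have hex : ∀ i : Fin 2, ∃ j, P i.castSucc = some j := by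
    intro i
    cases h3 : P i.castSucc with
    | none =>
      rw [← h2] at h3
      have h4 := P.injective h3
      exfalso
      clear h3
      revert h4
      revert i
      decide
    | some j => exact ⟨j, rfl⟩
  choose ι hι using hex
  have hinj : Function.Injective ι := by
    intro i i' h3
    have h4 : P i.castSucc = P i'.castSucc := by rw [hι, hι, h3]
    exact Fin.castSucc_injective _ (P.injective h4)
  have h1 := stableWeights_drop h ⟨ι, hinj⟩ (by
    intro j hj l
    refine hint (some j) ?_ l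
    rintro ⟨i, hi⟩
    apply hj
    have hi3 : i = 0 ∨ i = 1 ∨ i = 2 := by
      fin_cases i <;> simp
    rcases hi3 with rfl | rfl | rfl
    · refine ⟨0, ?_⟩
      have := hι 0
      have c0 : Fin.castSucc (0 : Fin 2) = 0 := by decide
      rw [c0, hi] at this
      exact (Option.some.inj this).symm
    · refine ⟨1, ?_⟩
      have := hι 1
      have c1 : Fin.castSucc (1 : Fin 2) = 1 := by decide
      rw [c1, hi] at this
      exact (Option.some.inj this).symm
    · rw [h2] at hi
      exact absurd hi (by simp))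
  refine stableWeights_congr h1 (fun i l => ⟨0, ?_⟩) (fun l => ⟨0, ?_⟩)
  · rw [hι]
    simp [ex]
  · rw [h2]
    simp [ex]

/-- Three points. -/
theorem stable_three {K : Type*} [Field K] {x : Fin m → Fin r → ℝ} {y : Fin r → ℝ}
    (h : StableWeights K x y) (P : Fin 3 ↪ Option (Fin m))
    (hint : ∀ p, p ∉ Set.range P → ∀ l, ∃ z : ℤ, ex x y p l = z) :
    StableWeights K (fun j : Fin 2 => ex x y (P j.castSucc)) (fun l => -ex x y (P 2) l) := by
  classical
  cases h2 : P 2 with
  | none =>
    have := stable_three_inf h P h2 hint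
    rwa [h2] at this
  | some j0 =>
    set σ : Equiv.Perm (Option (Fin m)) := Equiv.swap none (some j0) with hσ
    have h1 := stableWeights_swap h j0
    have e1 : ∀ p, ex (Function.update x j0 (fun l => -y l)) (fun l => -x j0 l) p = ex x y (σ p) := by
      intro p
      cases p with
      | none =>
        rw [hσ, Equiv.swap_apply_left]
        funext l
        simp [ex]
      | some j =>
        by_cases hj : j = j0
        · subst hj
          rw [hσ, Equiv.swap_apply_right]
          simp only [ex, Function.update_self]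
        · rw [hσ, Equiv.swap_apply_of_ne_of_ne (by simp) (by simpa using hj)]
          simp only [ex, Function.update_of_ne hj]
    let P' : Fin 3 ↪ Option (Fin m) := P.trans σ.toEmbedding
    have hP' : ∀ i, P' i = σ (P i) := fun _ => rfl
    have hσσ : ∀ p, σ (σ p) = p := fun p => by rw [hσ, Equiv.swap_apply_self]
    have h3 := stable_three_inf h1 P' (by
      rw [hP', h2, hσ, Equiv.swap_apply_right]) (by
      intro p hp l
      rw [e1]
      refine hint _ ?_ l
      rintro ⟨i, hi⟩
      exact hp ⟨i, by rw [hP', hi, hσσ]⟩)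
    simp only [e1, hP', hσσ] at h3
    rw [h2] at h3
    exact h3

/-- Twists. -/
theorem Good.twist {B : ℕ} (hB : 0 < B) {F : Fin 3 → Fin r → ℤ} (hg : Good B F) {N : ℕ} (hN : 0 < N)
    {E : Fin 3 → Fin r → ℤ} {t : Fin 3 → ℚ} (ht : ∑ i, t i = 0)
    (hE : ∀ i l, (F i l : ℚ) / B = (E i l : ℚ) / N + t i) : Good N E := by
  have hBq : (B : ℚ) ≠ 0 := by exact_mod_cast hB.ne'
  have hNR : (N : ℝ) ≠ 0 := by exact_mod_cast hN.ne'
  intro a ha
  obtain ⟨a', ha', haa⟩ := exists_lift (q := N) (N := N * B) (Nat.mul_pos hN hB)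
    (dvd_mul_right _ _) a ha
  have ha'B : IsCoprime a' (B : ℤ) := IsCoprime.of_isCoprime_of_dvd_right ha' (by
    push_cast; exact dvd_mul_left _ _)
  have h1 := rat_good hg a' ha'B
  obtain ⟨k, hk⟩ := haa
  have c0 : Fin.castSucc (0 : Fin 2) = 0 := by decide
  have c1 : Fin.castSucc (1 : Fin 2) = 1 := by decide
  have h2 := stableWeights_shift (stableWeights_shift h1 0 (-((a' : ℝ) * t 0))) 1
    (-((a' : ℝ) * t 1))
  have hl : ∀ i l, ((((F i l : ℚ) / B : ℚ) : ℝ)) = (E i l : ℝ) / N + t i := by
    intro i l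
    rw [hE]
    push_cast
    rfl
  have haR : (a' : ℝ) = a + N * k := by
    have : a' = a + N * k := by linarith
    exact_mod_cast this
  refine stableWeights_congr h2 (fun j l => ⟨k * E j.castSucc l, ?_⟩) (fun l => ⟨-(k * E 2 l), ?_⟩)
  · have hj : j = 0 ∨ j = 1 := by omega
    rw [hl]
    rcases hj with rfl | rfl
    · rw [c0, if_pos rfl, if_neg (by decide)]
      rw [haR]
      push_cast
      field_simp
      ring
    · rw [c1, if_neg (by decide), if_pos rfl]
      rw [haR]
      push_cast
      field_simp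
      ring
  · have hl' : ((-((F 2 l : ℚ) / B) : ℚ) : ℝ) = -((E 2 l : ℝ) / N + t 2) := by
      rw [← hl]
      push_cast
      rfl
    rw [hl']
    have ht' : ((∑ i, t i : ℚ) : ℝ) = 0 := by rw [ht]; simp
    rw [Fin.sum_univ_three] at ht'
    push_cast at ht'
    have ht2 : (t 2 : ℝ) = -t 0 - t 1 := by linarith
    rw [haR, ht2]
    push_cast
    field_simp
    ring

section op

variable {lam : Fin m → Fin r → ℚ} {phi : Fin r → ℚ} {b : Fin (r + 1) → ℤ[X]}
  {α : Fin m → AlgebraicClosure ℚ}

/-- The three points of an operator. -/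
theorem good_op (hm : 1 ≤ m) (hr : 1 ≤ r) (hF : FuchsianWith b α lam phi) (hirr : ¬ Reducible b)
    {B : ℕ} (hB : CommonDen lam phi B) (hbad : ¬ BadClass b B) (P : Fin 3 ↪ Option (Fin m))
    (hint : ∀ p, p ∉ Set.range P → ∀ l, (expo lam phi p l).den = 1) {F : Fin 3 → Fin r → ℤ}
    (hFl : ∀ i l, expo lam phi (P i) l = (F i l : ℚ) / B) : Good B F := by
  intro a ha
  have hst : StableWeights ℂ (fun j l => (a : ℝ) * lam j l) (fun l => (a : ℝ) * phi l) := by
    by_contra hst
    exact hbad ⟨a, ha, bad_class (by omega) (by omega) hF hB a (Or.inr ⟨hirr, hst⟩)⟩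
  have hex : ∀ p l, ex (fun (j : Fin m) l => (a : ℝ) * lam j l) (fun l => (a : ℝ) * phi l) p l =
      (a : ℝ) * ((expo lam phi p l : ℚ) : ℝ) := by
    intro p l
    cases p with
    | none =>
      simp only [ex, expo]
      push_cast
      ring
    | some j => rfl
  have h1 := stable_three hst P (by
    intro p hp l
    rw [hex, ← Rat.coe_int_num_of_den_eq_one (hint p hp l)]
    exact ⟨a * (expo lam phi p l).num, by push_cast; ring⟩)
  refine stableWeights_congr h1 (fun j l => ⟨0, ?_⟩) (fun l => ⟨0, ?_⟩)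
  · rw [hex, hFl]
    push_cast
    ring
  · rw [hex, hFl]
    push_cast
    ring

lemma expo_den {B : ℕ} (hB : CommonDen lam phi B) (p : Option (Fin m)) (l : Fin r) :
    ∃ z : ℤ, expo lam phi p l = (z : ℚ) / B := by
  obtain ⟨hB0, h1, h2⟩ := hB
  have hBq : (B : ℚ) ≠ 0 := by exact_mod_cast hB0.ne'
  cases p with
  | none =>
    obtain ⟨z, hz⟩ := h2 l
    refine ⟨-z, ?_⟩
    simp only [expo]
    push_cast
    rw [← hz]
    field_simp
  | some j =>
    obtain ⟨z, hz⟩ := h1 j l
    refine ⟨z, ?_⟩
    simp only [expo]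
    rw [← hz]
    field_simp

lemma one_le_of_three (P : Fin 3 ↪ Option (Fin m)) : 1 ≤ m := by
  rcases Nat.eq_zero_or_pos m with h | h
  · subst h
    have h3 := Fintype.card_le_of_injective P P.injective
    simp at h3
  · exact h

/-- The inequality for one exponent. -/
theorem op_main (hF : FuchsianWith b α lam phi) (hirr : ¬ Reducible b)
    {B : ℕ} (hB : CommonDen lam phi B) (P : Fin 3 ↪ Option (Fin m))
    (hint : ∀ p, p ∉ Set.range P → ∀ l, (expo lam phi p l).den = 1) {x y z : Fin 3}
    (hxy : x ≠ y) (hyz : y ≠ z) (hxz : x ≠ z) (k : Fin r)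
    (hv : Violated (fun i => expo lam phi (P i)) x y z k) : BadClass b B := by
  by_contra hbad
  choose F hFl using fun (i : Fin 3) (l : Fin r) => expo_den hB (P i) l
  have hr : 1 ≤ r := by
    have := k.2
    omega
  exact (good_op (one_le_of_three P) hr hF hirr hB hbad P hint hFl).not_violated hB.1
    (lam := fun i => expo lam phi (P i)) hFl hxy hyz hxz k hv

/-- Large total multiplicities. -/
theorem op_three (hr : 2 ≤ r) (hF : FuchsianWith b α lam phi) (hirr : ¬ Reducible b)
    {B : ℕ} (hB : CommonDen lam phi B) (P : Fin 3 ↪ Option (Fin m))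
    (hint : ∀ p, p ∉ Set.range P → ∀ l, (expo lam phi p l).den = 1) {N : ℕ} (hN : N.Prime)
    (h1 : ∀ i l l', ∃ m : ℤ, (N : ℚ) * (expo lam phi (P i) l - expo lam phi (P i) l') = m)
    (h2 : ∀ κ : Fin 3 → Fin r, ∃ m : ℤ, (N : ℚ) * ∑ i, expo lam phi (P i) (κ i) = m)
    (hmult : ∀ κ : Fin 3 → Fin r, r ≤ ∑ i, mult (fun i => expo lam phi (P i)) i (κ i))
    (hex : ¬ Exceptional (fun i => expo lam phi (P i))) : BadClass b B := by
  by_contra hbad
  choose F hFl using fun (i : Fin 3) (l : Fin r) => expo_den hB (P i) l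
  have hg := good_op (one_le_of_three P) (by omega) hF hirr hB hbad P hint hFl
  obtain ⟨E, t, ht, hE⟩ := exists_twist hN.pos (fun i => expo lam phi (P i))
    (fun _ => ⟨0, by omega⟩) (fun i l => h1 i l _) (h2 _)
  exact hex (exceptional_of hN hr (hg.twist hB.1 hN.pos ht (fun i l => by
    rw [← hFl]
    exact hE i l)) ht hE hmult)

end op

end Pool.Agent.R340.MI
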