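import Pool.Agent.R340.HK.Shift

set_option autoImplicit false

/-!
The inversion of the coordinate: polynomials `x ^ D p (1 / x)`.
-/

open Polynomial Finset

namespace Pool.Agent.R340.MI

open Pool.Agent.Y227.SS Pool.Agent.R340.HK

variable {K : Type*} [Field K] {n r s : ℕ}

lemma reflect_X_pow_self (a : ℕ) : reflect a (X ^ a : K[X]) = 1 := by
  rw [reflect_monomial, revAt_le le_rfl, Nat.sub_self, pow_zero]

lemma reflect_one' (a : ℕ) : reflect a (1 : K[X]) = X ^ a := by
  have h := reflect_monomial (R := K) a 0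
  rw [pow_zero] at h
  rw [h, revAt_le (Nat.zero_le _), Nat.sub_zero]

lemma natDegree_reflect_le_of_le {p : K[X]} {D : ℕ} (hD : p.natDegree ≤ D) :
    (reflect D p).natDegree ≤ D := by
  refine natDegree_le_iff_coeff_eq_zero.2 fun N hN => ?_
  rw [coeff_reflect, revAt_eq_self_of_lt hN]
  exact coeff_eq_zero_of_natDegree_lt (lt_of_le_of_lt hD hN)

lemma natDegree_reflect_add_le {p : K[X]} (hp : p ≠ 0) {D a : ℕ} (hD : p.natDegree ≤ D)
    (ha : X ^ a ∣ p) : (reflect D p).natDegree + a ≤ D := by
  obtain ⟨q, rfl⟩ := ha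
  have hq : q ≠ 0 := right_ne_zero_of_mul hp
  have h1 : (X ^ a * q : K[X]).natDegree = a + q.natDegree := by
    rw [natDegree_mul (pow_ne_zero _ X_ne_zero) hq, natDegree_X_pow]
  rw [h1] at hD
  have h2 : reflect D (X ^ a * q : K[X]) = reflect (D - a) q := by
    have h3 := reflect_mul (X ^ a : K[X]) q (F := a) (G := D - a)
      (by rw [natDegree_X_pow]) (by omega)
    rw [show a + (D - a) = D by omega, reflect_X_pow_self, one_mul] at h3
    exact h3
  rw [h2]
  have := natDegree_reflect_le_of_le (p := q) (D := D - a) (by omega)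
  omega

lemma X_pow_dvd_reflect {p : K[X]} {D : ℕ} (hD : p.natDegree ≤ D) :
    X ^ (D - p.natDegree) ∣ reflect D p := by
  have h3 := reflect_mul (1 : K[X]) p (F := D - p.natDegree) (G := p.natDegree)
    (by rw [natDegree_one]; exact Nat.zero_le _) le_rfl
  rw [show D - p.natDegree + p.natDegree = D by omega, reflect_one', one_mul] at h3
  rw [h3]
  exact dvd_mul_right _ _

lemma reflect_linear {γ : K} (hγ : γ ≠ 0) : reflect 1 (X - C γ) = C (-γ) * (X - C γ⁻¹) := by
  have h1 : (X - C γ : K[X]) = X ^ 1 + C (-γ) * 1 := by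
    rw [pow_one, mul_one, map_neg, sub_eq_add_neg]
  rw [h1, reflect_add, reflect_X_pow_self, reflect_C_mul, reflect_one', mul_sub, ← C_mul, neg_mul,
    mul_inv_cancel₀ hγ, pow_one, C_neg, C_neg, C_1]
  ring

lemma reflect_linear_pow {γ : K} (hγ : γ ≠ 0) (k : ℕ) :
    reflect k ((X - C γ) ^ k) = (C (-γ) * (X - C γ⁻¹)) ^ k := by
  induction k with
  | zero =>
    rw [pow_zero, pow_zero, reflect_one', pow_zero]
  | succ k ih =>
    have h3 := reflect_mul ((X - C γ) ^ k) (X - C γ) (F := k) (G := 1)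
      (by rw [natDegree_pow, natDegree_X_sub_C, mul_one]) (by rw [natDegree_X_sub_C])
    rw [pow_succ, h3, ih, reflect_linear hγ, pow_succ]

lemma pow_dvd_reflect {p : K[X]} (hp : p ≠ 0) {D k : ℕ} {γ : K} (hγ : γ ≠ 0)
    (hD : p.natDegree ≤ D) (hk : (X - C γ) ^ k ∣ p) : (X - C γ⁻¹) ^ k ∣ reflect D p := by
  obtain ⟨q, rfl⟩ := hk
  have hq : q ≠ 0 := right_ne_zero_of_mul hp
  have h1 : ((X - C γ) ^ k * q).natDegree = k + q.natDegree := by
    rw [natDegree_mul (pow_ne_zero _ (X_sub_C_ne_zero _)) hq, natDegree_pow, natDegree_X_sub_C,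
      mul_one]
  rw [h1] at hD
  have h3 := reflect_mul ((X - C γ) ^ k) q (F := k) (G := D - k)
    (by rw [natDegree_pow, natDegree_X_sub_C, mul_one]) (by omega)
  rw [show k + (D - k) = D by omega, reflect_linear_pow hγ] at h3
  rw [h3, mul_pow, mul_comm (C (-γ) ^ k), mul_assoc]
  exact dvd_mul_right _ _

lemma reflect_sum' {ι : Type*} (t : Finset ι) (f : ι → K[X]) (D : ℕ) :
    reflect D (∑ i ∈ t, f i) = ∑ i ∈ t, reflect D (f i) := by
  classical
  induction t using Finset.induction_on with
  | empty => simp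
  | insert i t hi ih => rw [sum_insert hi, sum_insert hi, reflect_add, ih]

lemma reflect_prod' {ι : Type*} (t : Finset ι) (f : ι → K[X]) (D : ℕ)
    (h : ∀ i ∈ t, (f i).natDegree ≤ D) :
    reflect (t.card * D) (∏ i ∈ t, f i) = ∏ i ∈ t, reflect D (f i) ∧
      (∏ i ∈ t, f i).natDegree ≤ t.card * D := by
  classical
  induction t using Finset.induction_on with
  | empty => simp [reflect_one']
  | insert i t hi ih =>
    obtain ⟨h1, h2⟩ := ih fun j hj => h j (mem_insert_of_mem hj)
    have h3 := h i (mem_insert_self _ _)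
    rw [prod_insert hi, prod_insert hi, card_insert_of_notMem hi]
    have h4 : (t.card + 1) * D = D + t.card * D := by ring
    rw [h4]
    exact ⟨by rw [reflect_mul _ _ h3 h2, h1],
      natDegree_mul_le.trans (add_le_add h3 h2)⟩

/-- Minors of the matrix of the reflected polynomials. -/
lemma mnr_reflect (A : Matrix (Fin s) (Fin r) K[X]) (D : ℕ) (h : ∀ i l, (A i l).natDegree ≤ D)
    (J : Fin s → Fin r) : mnr (A.map (reflect D)) J = reflect (s * D) (mnr A J) ∧
      (mnr A J).natDegree ≤ s * D := by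
  classical
  have hp : ∀ σ : Equiv.Perm (Fin s), reflect (s * D) (∏ i, A (σ i) (J i)) =
      ∏ i, reflect D (A (σ i) (J i)) ∧ (∏ i, A (σ i) (J i)).natDegree ≤ s * D := by
    intro σ
    have := reflect_prod' (univ : Finset (Fin s)) (fun i => A (σ i) (J i)) D fun i _ => h _ _
    rwa [card_univ, Fintype.card_fin] at this
  have hneg : ∀ p : K[X], reflect (s * D) (-p) = -reflect (s * D) p := by
    intro p
    have := reflect_C_mul p (-1 : K) (s * D)
    rwa [C_neg, C_1, neg_one_mul, neg_one_mul] at this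
  unfold mnr
  rw [Matrix.det_apply, Matrix.det_apply, reflect_sum']
  refine ⟨sum_congr rfl fun σ _ => ?_, natDegree_sum_le_of_forall_le _ _ fun σ _ => ?_⟩
  · simp only [Matrix.submatrix_apply, Matrix.map_apply, id]
    rcases Int.units_eq_one_or (Equiv.Perm.sign σ) with hs | hs
    · rw [hs, one_smul, one_smul, (hp σ).1]
    · rw [hs, Units.neg_smul, one_smul, Units.neg_smul, one_smul, hneg, (hp σ).1]
  · simp only [Matrix.submatrix_apply, id]
    rcases Int.units_eq_one_or (Equiv.Perm.sign σ) with hs | hs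
    · rw [hs, one_smul]
      exact (hp σ).2
    · rw [hs, Units.neg_smul, one_smul, natDegree_neg]
      exact (hp σ).2

/-- Products with constant matrices. -/
lemma reflect_mul_const (A : Matrix (Fin s) (Fin r) K[X]) (Q : Matrix (Fin r) (Fin r) K) (D : ℕ) :
    A.map (reflect D) * Q.map C = (A * Q.map C).map (reflect D) := by
  refine Matrix.ext fun i l => ?_
  simp only [Matrix.mul_apply, Matrix.map_apply]
  rw [reflect_sum']
  refine sum_congr rfl fun j _ => ?_
  rw [mul_comm (A i j), reflect_C_mul, mul_comm]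

end Pool.Agent.R340.MI
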