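import Pool.Agent.R340.MI.Good
import Pool.Agent.TH571.PCV.UnitsSum

set_option autoImplicit false

/-!
The inequality for one exponent, averaged over all conjugates.
-/

open Finset

namespace Pool.Agent.R340.MI

open Pool.Agent.W280.PC Pool.Agent.R927 Pool.Agent.TH571.PCV
open Pool.Agent.R340.HK (Q_double hinge_of_stable)

variable {r N : ℕ}

/-- The inequality for one multiplier and one exponent. -/
theorem single_leg (hN : 0 < N) (a : ℤ) (f g h : Fin r → ℤ)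
    (hsum : ∑ l, f l + ∑ l, g l = ∑ l, h l) (k : Fin r)
    (H : ∀ τ : ℤ, ¬ 2 ∣ τ → HingeData (2 * N) (fun l => 2 * a * f l) (fun l => 2 * a * g l)
      (fun l => 2 * a * h l) τ) :
    ∑ i, ∑ j, Q N (a * (g i - g j)) + ∑ i, ∑ j, Q N (a * (h i - h j)) -
        2 * ∑ i, ∑ j, Q N (a * (f k + g i - h j)) ≤
      ∑ i, ∑ j, Q N (a * (f i - f j)) - 2 * r * ∑ l, Q N (a * (f k - f l)) ∧
    ((∃ i j, ¬ (N : ℤ) ∣ a * (f k - f i) ∧ ¬ (N : ℤ) ∣ a * (f k - f j) ∧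
        ¬ (N : ℤ) ∣ a * (f i - f j)) →
      ∑ i, ∑ j, Q N (a * (g i - g j)) + ∑ i, ∑ j, Q N (a * (h i - h j)) -
        2 * ∑ i, ∑ j, Q N (a * (f k + g i - h j)) <
      ∑ i, ∑ j, Q N (a * (f i - f j)) - 2 * r * ∑ l, Q N (a * (f k - f l))) := by
  have hD : 0 < 2 * N := by omega
  have hD2 : (2 : ℤ) ∣ ((2 * N : ℕ) : ℤ) := ⟨N, by push_cast; ring⟩
  have hsum' : ∑ l, 2 * a * f l + ∑ l, 2 * a * g l = ∑ l, 2 * a * h l := by
    rw [← mul_sum, ← mul_sum, ← mul_sum, ← hsum]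
    ring
  have key := quad_ineq hD hD2 (fun l => 2 * a * f l) (fun l => 2 * a * g l)
    (fun l => 2 * a * h l) (fun l => ⟨a * f l, by ring⟩) hsum' (2 * a * f k) ⟨a * f k, by ring⟩
    (fun δ hδ _ _ => H (2 * a * f k - δ) (fun h0 => hδ (by
      have h1 : (2 : ℤ) ∣ 2 * a * f k := ⟨a * f k, by ring⟩
      exact (dvd_sub_right h1).1 h0)))
  have e1 : ∀ f : Fin r → ℤ, ∑ i, ∑ j, Q (2 * N) (2 * a * f i - 2 * a * f j) =
      4 * ∑ i, ∑ j, Q N (a * (f i - f j)) := by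
    intro f
    simp only [mul_sum]
    refine sum_congr rfl fun i _ => sum_congr rfl fun j _ => ?_
    rw [← Q_double]
    congr 1
    ring
  have e2 : ∑ i, ∑ j, Q (2 * N) (2 * a * f k + 2 * a * g i - 2 * a * h j) =
      4 * ∑ i, ∑ j, Q N (a * (f k + g i - h j)) := by
    simp only [mul_sum]
    refine sum_congr rfl fun i _ => sum_congr rfl fun j _ => ?_
    rw [← Q_double]
    congr 1
    ring
  have e3 : ∑ l, Q (2 * N) (2 * a * f k - 2 * a * f l) =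
      4 * ∑ l, Q N (a * (f k - f l)) := by
    simp only [mul_sum]
    refine sum_congr rfl fun j _ => ?_
    rw [← Q_double]
    congr 1
    ring
  simp only [e1, e2, e3] at key
  refine ⟨by linarith [key.1], ?_⟩
  rintro ⟨i, j, hi, hj, hij⟩
  have hpos : ∀ l, ¬ (N : ℤ) ∣ a * (f k - f l) →
      0 < (2 * a * f k - 2 * a * f l) % ((2 * N : ℕ) : ℤ) := by
    intro l hl
    refine lt_of_le_of_ne (Int.emod_nonneg _ (by exact_mod_cast hD.ne')) fun h0 => hl ?_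
    have h2 := Int.dvd_of_emod_eq_zero h0.symm
    obtain ⟨m, hm⟩ := h2
    refine ⟨m, ?_⟩
    push_cast at hm
    linarith
  have hne : (2 * a * f k - 2 * a * f i) % ((2 * N : ℕ) : ℤ) ≠
      (2 * a * f k - 2 * a * f j) % ((2 * N : ℕ) : ℤ) := by
    intro h0
    apply hij
    have h3 := (Int.emod_eq_emod_iff_emod_sub_eq_zero.1 h0)
    obtain ⟨m, hm⟩ := Int.dvd_of_emod_eq_zero h3
    refine ⟨-m, ?_⟩
    push_cast at hm
    linarith
  have h5 := key.2 (by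
    rcases lt_or_gt_of_ne hne with h2 | h2
    · exact ⟨i, j, hpos i hi, h2⟩
    · exact ⟨j, i, hpos j hj, h2⟩)
  linarith

/-- The average over the units of the quadratic function. -/
lemma sum_F_gam [NeZero N] (z : ℤ) :
    6 * ((∑ u : (ZMod N)ˣ, F N ((u : ZMod N) * (z : ZMod N)) : ℤ) : ℚ) =
      (N.totient : ℚ) * (N : ℚ) ^ 2 * (gam ((z : ℚ) / N) - 1) := by
  have hN : 0 < N := Nat.pos_of_ne_zero (NeZero.ne N)
  have hNq : (N : ℚ) ≠ 0 := by exact_mod_cast hN.ne'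
  have h1 := unit_sum N (z : ZMod N)
  have h2 : gam ((((z : ZMod N).val : ℕ) : ℚ) / N) = gam ((z : ℚ) / N) := by
    have h3 : (N : ℤ) ∣ z - ((z : ZMod N).val : ℤ) := by
      rw [← ZMod.intCast_zmod_eq_zero_iff_dvd]
      simp
    obtain ⟨k, hk⟩ := h3
    have h4 : (z : ℚ) / N = (((z : ZMod N).val : ℕ) : ℚ) / N + (k : ℤ) := by
      have h5 : (z : ℚ) = ((z : ZMod N).val : ℕ) + N * k := by
        have : z = ((z : ZMod N).val : ℤ) + N * k := by linarith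
        exact_mod_cast this
      rw [h5]
      field_simp
    rw [h4, gam_add_int]
  rw [h2] at h1
  have h3 : ((∑ u : (ZMod N)ˣ, F N ((u : ZMod N) * (z : ZMod N)) : ℤ) : ℚ) =
      -((∑ u : (ZMod N)ˣ, ((((u : ZMod N) * (z : ZMod N)).val : ℤ) *
        (N - ((u : ZMod N) * (z : ZMod N)).val)) : ℤ) : ℚ) := by
    rw [← Int.cast_neg, ← sum_neg_distrib]
    congr 1
    refine sum_congr rfl fun u _ => ?_
    unfold F
    ring
  rw [h3]
  linarith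

/-- **The inequality for one exponent.** -/
theorem single_ineq (hN : 0 < N) (f g h : Fin r → ℤ) (hsum : ∑ l, f l + ∑ l, g l = ∑ l, h l)
    (k : Fin r)
    (H : ∀ a : ℤ, IsCoprime a (N : ℤ) → ∀ τ : ℤ, ¬ 2 ∣ τ →
      HingeData (2 * N) (fun l => 2 * a * f l) (fun l => 2 * a * g l) (fun l => 2 * a * h l) τ) :
    ∑ i, ∑ j, gam ((g i - g j : ℤ) / N) + ∑ i, ∑ j, gam ((h i - h j : ℤ) / N) +
        2 * r * ∑ l, gam ((f k - f l : ℤ) / N) ≤
      (r : ℚ) ^ 2 + ∑ i, ∑ j, gam ((f i - f j : ℤ) / N) +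
        2 * ∑ i, ∑ j, gam ((f k + g i - h j : ℤ) / N) ∧
    ((∃ i j, ¬ (N : ℤ) ∣ f k - f i ∧ ¬ (N : ℤ) ∣ f k - f j ∧ ¬ (N : ℤ) ∣ f i - f j) →
      ∑ i, ∑ j, gam ((g i - g j : ℤ) / N) + ∑ i, ∑ j, gam ((h i - h j : ℤ) / N) +
        2 * r * ∑ l, gam ((f k - f l : ℤ) / N) <
      (r : ℚ) ^ 2 + ∑ i, ∑ j, gam ((f i - f j : ℤ) / N) +
        2 * ∑ i, ∑ j, gam ((f k + g i - h j : ℤ) / N)) := by
  classical
  have : NeZero N := ⟨hN.ne'⟩
  have hNq : (0 : ℚ) < N := by exact_mod_cast hN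
  have hφ : (0 : ℚ) < N.totient := by exact_mod_cast Nat.totient_pos.2 hN
  set c : ℚ := (N.totient : ℚ) * (N : ℚ) ^ 2 with hc
  have hc0 : 0 < c := mul_pos hφ (pow_pos hNq 2)
  have hcop : ∀ u : (ZMod N)ˣ, IsCoprime (((u : ZMod N).val : ℕ) : ℤ) (N : ℤ) := fun u =>
    Nat.isCoprime_iff_coprime.2 (ZMod.val_coe_unit_coprime u)
  have hQF : ∀ (u : (ZMod N)ˣ) (z : ℤ), Q N ((((u : ZMod N).val : ℕ) : ℤ) * z) =
      F N ((u : ZMod N) * (z : ZMod N)) := by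
    intro u z
    rw [Q_eq_F, Int.cast_mul]
    simp
  let S2 : (Fin r → ℤ) → (ZMod N)ˣ → ℤ := fun f u =>
    ∑ i, ∑ j, F N ((u : ZMod N) * ((f i - f j : ℤ) : ZMod N))
  let S3 : (ZMod N)ˣ → ℤ := fun u =>
    ∑ i, ∑ j, F N ((u : ZMod N) * ((f k + g i - h j : ℤ) : ZMod N))
  let S1 : (ZMod N)ˣ → ℤ := fun u => ∑ l, F N ((u : ZMod N) * ((f k - f l : ℤ) : ZMod N))
  have hS2 : ∀ f : Fin r → ℤ, 6 * ((∑ u, S2 f u : ℤ) : ℚ) =
      c * (∑ i, ∑ j, gam ((f i - f j : ℤ) / N) - (r : ℚ) ^ 2) := by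
    intro f
    simp only [S2]
    rw [sum_comm]
    push_cast
    rw [mul_sum]
    have h6 : ∀ i : Fin r, 6 * ((∑ u : (ZMod N)ˣ, ∑ j,
        F N ((u : ZMod N) * ((f i - f j : ℤ) : ZMod N)) : ℤ) : ℚ) =
        c * (∑ j, gam ((f i - f j : ℤ) / N) - r) := by
      intro i
      rw [sum_comm]
      push_cast
      rw [mul_sum]
      have h7 : ∀ j : Fin r, 6 * ((∑ u : (ZMod N)ˣ,
          F N ((u : ZMod N) * ((f i - f j : ℤ) : ZMod N)) : ℤ) : ℚ) =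
          c * (gam ((f i - f j : ℤ) / N) - 1) := fun j => sum_F_gam _
      push_cast at h7
      rw [sum_congr rfl fun j _ => h7 j, ← mul_sum, sum_sub_distrib, sum_const, card_univ,
        Fintype.card_fin, nsmul_eq_mul, mul_one]
    push_cast at h6
    rw [sum_congr rfl fun i _ => h6 i, ← mul_sum, sum_sub_distrib, sum_const, card_univ,
      Fintype.card_fin, nsmul_eq_mul]
    ring
  have hS1 : 6 * ((∑ u, S1 u : ℤ) : ℚ) = c * (∑ l, gam ((f k - f l : ℤ) / N) - r) := by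
    simp only [S1]
    rw [sum_comm]
    push_cast
    rw [mul_sum]
    have h7 : ∀ j : Fin r, 6 * ((∑ u : (ZMod N)ˣ,
        F N ((u : ZMod N) * ((f k - f j : ℤ) : ZMod N)) : ℤ) : ℚ) =
        c * (gam ((f k - f j : ℤ) / N) - 1) := fun j => sum_F_gam _
    push_cast at h7
    rw [sum_congr rfl fun j _ => h7 j, ← mul_sum, sum_sub_distrib, sum_const, card_univ,
      Fintype.card_fin, nsmul_eq_mul, mul_one]
  have hS3 : 6 * ((∑ u, S3 u : ℤ) : ℚ) =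
      c * (∑ i, ∑ j, gam ((f k + g i - h j : ℤ) / N) - (r : ℚ) ^ 2) := by
    simp only [S3]
    rw [sum_comm]
    push_cast
    rw [mul_sum]
    have h6 : ∀ i : Fin r, 6 * ((∑ u : (ZMod N)ˣ, ∑ j,
        F N ((u : ZMod N) * ((f k + g i - h j : ℤ) : ZMod N)) : ℤ) : ℚ) =
        c * (∑ j, gam ((f k + g i - h j : ℤ) / N) - r) := by
      intro i
      rw [sum_comm]
      push_cast
      rw [mul_sum]
      have h7 : ∀ j : Fin r, 6 * ((∑ u : (ZMod N)ˣ,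
          F N ((u : ZMod N) * ((f k + g i - h j : ℤ) : ZMod N)) : ℤ) : ℚ) =
          c * (gam ((f k + g i - h j : ℤ) / N) - 1) := fun j => sum_F_gam _
      push_cast at h7
      rw [sum_congr rfl fun j _ => h7 j, ← mul_sum, sum_sub_distrib, sum_const, card_univ,
        Fintype.card_fin, nsmul_eq_mul, mul_one]
    push_cast at h6
    rw [sum_congr rfl fun i _ => h6 i, ← mul_sum, sum_sub_distrib, sum_const, card_univ,
      Fintype.card_fin, nsmul_eq_mul]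
    ring
  have hleg : ∀ u : (ZMod N)ˣ, S2 g u + S2 h u - 2 * S3 u ≤ S2 f u - 2 * r * S1 u ∧
      ((∃ i j, ¬ (N : ℤ) ∣ f k - f i ∧ ¬ (N : ℤ) ∣ f k - f j ∧ ¬ (N : ℤ) ∣ f i - f j) →
        S2 g u + S2 h u - 2 * S3 u < S2 f u - 2 * r * S1 u) := by
    intro u
    have h1 := single_leg hN (((u : ZMod N).val : ℕ) : ℤ) f g h hsum k (H _ (hcop u))
    simp only [hQF] at h1
    refine ⟨h1.1, ?_⟩
    rintro ⟨i, j, hi, hj, hij⟩
    have hd : ∀ z : ℤ, ¬ (N : ℤ) ∣ z → ¬ (N : ℤ) ∣ (((u : ZMod N).val : ℕ) : ℤ) * z :=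
      fun z hz h0 => hz ((hcop u).symm.dvd_of_dvd_mul_left h0)
    exact h1.2 ⟨i, j, hd _ hi, hd _ hj, hd _ hij⟩
  have hA : ∑ u, (S2 g u + S2 h u - 2 * S3 u) = ∑ u, S2 g u + ∑ u, S2 h u - 2 * ∑ u, S3 u := by
    rw [sum_sub_distrib, sum_add_distrib, ← mul_sum]
  have hB : ∑ u, (S2 f u - 2 * r * S1 u) = ∑ u, S2 f u - 2 * r * ∑ u, S1 u := by
    rw [sum_sub_distrib, ← mul_sum]
  constructor
  · have h1 := sum_le_sum fun (u : (ZMod N)ˣ) (_ : u ∈ univ) => (hleg u).1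
    rw [hA, hB] at h1
    have h2 : ((∑ u, S2 g u + ∑ u, S2 h u - 2 * ∑ u, S3 u : ℤ) : ℚ) ≤
        ((∑ u, S2 f u - 2 * r * ∑ u, S1 u : ℤ) : ℚ) := by exact_mod_cast h1
    rw [Int.cast_sub, Int.cast_add, Int.cast_mul, Int.cast_sub, Int.cast_mul, Int.cast_mul] at h2
    push_cast at h2
    have g1 := hS2 g
    have g2 := hS2 h
    have g3 := hS2 f
    push_cast at g1 g2 g3 hS1 hS3
    have h3 : c * (∑ i, ∑ j, gam ((g i - g j : ℤ) / N) + ∑ i, ∑ j, gam ((h i - h j : ℤ) / N) +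
        2 * r * ∑ l, gam ((f k - f l : ℤ) / N)) ≤
        c * ((r : ℚ) ^ 2 + ∑ i, ∑ j, gam ((f i - f j : ℤ) / N) +
        2 * ∑ i, ∑ j, gam ((f k + g i - h j : ℤ) / N)) := by
      push_cast
      linear_combination 6 * h2 - g1 - g2 + 2 * hS3 + g3 - 2 * r * hS1
    exact le_of_mul_le_mul_left h3 hc0
  · intro hthree
    have h1 := sum_lt_sum_of_nonempty (univ_nonempty (α := (ZMod N)ˣ))
      fun (u : (ZMod N)ˣ) (_ : u ∈ univ) => (hleg u).2 hthree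
    rw [hA, hB] at h1
    have h2 : ((∑ u, S2 g u + ∑ u, S2 h u - 2 * ∑ u, S3 u : ℤ) : ℚ) <
        ((∑ u, S2 f u - 2 * r * ∑ u, S1 u : ℤ) : ℚ) := by exact_mod_cast h1
    rw [Int.cast_sub, Int.cast_add, Int.cast_mul, Int.cast_sub, Int.cast_mul, Int.cast_mul] at h2
    push_cast at h2
    have g1 := hS2 g
    have g2 := hS2 h
    have g3 := hS2 f
    push_cast at g1 g2 g3 hS1 hS3
    have h3 : c * (∑ i, ∑ j, gam ((g i - g j : ℤ) / N) + ∑ i, ∑ j, gam ((h i - h j : ℤ) / N) +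
        2 * r * ∑ l, gam ((f k - f l : ℤ) / N)) <
        c * ((r : ℚ) ^ 2 + ∑ i, ∑ j, gam ((f i - f j : ℤ) / N) +
        2 * ∑ i, ∑ j, gam ((f k + g i - h j : ℤ) / N)) := by
      push_cast
      linear_combination 6 * h2 - g1 - g2 + 2 * hS3 + g3 - 2 * r * hS1
    exact lt_of_mul_lt_mul_left h3 hc0.le

end Pool.Agent.R340.MI
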