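import Pool.Agent.R340.MI.Refl

set_option autoImplicit false

/-!
The weights of stable bundles: infinity can be exchanged with a finite point.
-/

open Polynomial Finset

namespace Pool.Agent.R340.MI

open Pool.Agent.Y227.SS Pool.Agent.R340.HK

variable {K : Type*} [Field K] {n r : ℕ}

lemma exists_max_height {s : ℕ} (V : Matrix (Fin s) (Fin r) K[X]) (hV : ∃ J, mnr V J ≠ 0)
    (e : Fin r → ℝ) : ∃ J', mnr V J' ≠ 0 ∧ ∀ J, mnr V J ≠ 0 →
      ((mnr V J).natDegree : ℝ) + ∑ i, e (J i) ≤ (mnr V J').natDegree + ∑ i, e (J' i) := by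
  classical
  obtain ⟨J0, hJ0⟩ := hV
  obtain ⟨J', hJ', hmax⟩ := exists_max_image (univ.filter fun J => mnr V J ≠ 0)
    (fun J => ((mnr V J).natDegree : ℝ) + ∑ i, e (J i)) ⟨J0, mem_filter.2 ⟨mem_univ _, hJ0⟩⟩
  exact ⟨J', (mem_filter.1 hJ').2, fun J hJ => hmax J (mem_filter.2 ⟨mem_univ _, hJ⟩)⟩

/-- Translations of the coordinate. -/
theorem Par.translate {β : Fin n → K} {P : Fin n → Matrix (Fin r) (Fin r) K} {w : Fin n → Fin r → ℝ}
    {e : Fin r → ℝ} (h : Par β P w e) (c : K) : Par (fun j => β j - c) P w e := by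
  classical
  let φ : K[X] →+* K[X] := compRingHom (X - C c)
  have hφ : ∀ p, φ p = p.comp (X - C c) := fun p => rfl
  have hφC : ∀ a : K, φ (C a) = C a := fun a => by rw [hφ, C_comp]
  have hdeg : ∀ p : K[X], (φ p).natDegree = p.natDegree := by
    intro p
    rw [hφ, natDegree_comp, natDegree_X_sub_C, mul_one]
  have hne : ∀ p : K[X], φ p = 0 → p = 0 := by
    intro p hp
    have h1 : (p.comp (X - C c)).comp (X + C c) = 0 := by
      rw [← hφ, hp, zero_comp]
    rw [comp_assoc, sub_comp, X_comp, C_comp, add_sub_cancel_right, comp_X] at h1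
    exact h1
  have hroot : ∀ (p : K[X]) (b : K), p ≠ 0 →
      p.rootMultiplicity (b - c) ≤ (φ p).rootMultiplicity b := by
    intro p b hp
    have hp' : φ p ≠ 0 := fun h0 => hp (hne p h0)
    rw [le_rootMultiplicity_iff hp']
    have h1 := pow_rootMultiplicity_dvd p (b - c)
    have h2 := map_dvd φ h1
    rw [map_pow, map_sub, hφC, hφ X, X_comp] at h2
    have h3 : (X - C c - C (b - c) : K[X]) = X - C b := by
      rw [C_sub]
      ring
    rwa [h3] at h2
  have hmnr : ∀ (s : ℕ) (V : Matrix (Fin s) (Fin r) K[X]) (J : Fin s → Fin r),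
      mnr (V.map φ) J = φ (mnr V J) := by
    intro s V J
    unfold mnr
    rw [RingHom.map_det]
    rfl
  have hconst : ∀ (s : ℕ) (V : Matrix (Fin s) (Fin r) K[X]) (j : Fin n),
      V.map φ * (P j).map C = (V * (P j).map C).map φ := by
    intro s V j
    rw [Matrix.map_mul]
    congr 1
    refine Matrix.ext fun i l => ?_
    simp only [Matrix.map_apply, hφC]
  have key : ∀ (s : ℕ) (V : Matrix (Fin s) (Fin r) K[X]), (∃ J, mnr V J ≠ 0) → ∀ τ : Fin n → ℝ,
      (∀ j J, mnr (V * (P j).map C) J ≠ 0 →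
        τ j ≤ (mnr (V * (P j).map C) J).rootMultiplicity (β j - c) + ∑ i, w j (J i)) →
      (∃ J, mnr (V.map φ) J ≠ 0) ∧ (∀ j J, mnr (V.map φ * (P j).map C) J ≠ 0 →
        τ j ≤ (mnr (V.map φ * (P j).map C) J).rootMultiplicity (β j) + ∑ i, w j (J i)) := by
    intro s V hV τ hτ
    refine ⟨?_, fun j J hJ => ?_⟩
    · obtain ⟨J, hJ⟩ := hV
      exact ⟨J, fun h0 => hJ (hne _ (by rw [← hmnr]; exact h0))⟩
    · rw [hconst, hmnr] at hJ ⊢
      have h1 : mnr (V * (P j).map C) J ≠ 0 := fun h0 => hJ (by rw [h0, map_zero])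
      have h2 := hτ j J h1
      have h3 : ((mnr (V * (P j).map C) J).rootMultiplicity (β j - c) : ℝ) ≤
          ((φ (mnr (V * (P j).map C) J)).rootMultiplicity (β j) : ℝ) := by
        exact_mod_cast hroot _ _ h1
      linarith
  refine ⟨h.det, h.nn, h.sum, ?_, ?_⟩
  · intro s V hV τ hτ
    obtain ⟨h1, h2⟩ := key s V hV τ hτ
    obtain ⟨J, hJ, hle⟩ := h.ss s _ h1 τ h2
    rw [hmnr] at hJ hle
    rw [hdeg] at hle
    exact ⟨J, fun h0 => hJ (by rw [h0, map_zero]), hle⟩
  · intro s hs hsr V hV τ hτ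
    obtain ⟨h1, h2⟩ := key s V hV τ hτ
    obtain ⟨J, hJ, hle⟩ := h.st s hs hsr _ h1 τ h2
    rw [hmnr] at hJ hle
    rw [hdeg] at hle
    exact ⟨J, fun h0 => hJ (by rw [h0, map_zero]), hle⟩

/-- **The exchange of infinity and a finite point.** -/
theorem Par.swap {β : Fin n → K} (hβ : Function.Injective β)
    {P : Fin n → Matrix (Fin r) (Fin r) K} {w : Fin n → Fin r → ℝ} {e : Fin r → ℝ}
    (h : Par β P w e) (j0 : Fin n) (h0 : β j0 = 0) :
    ∃ (P' : Fin n → Matrix (Fin r) (Fin r) K) (e' : Fin r → ℝ) (σ : Equiv.Perm (Fin r)),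
      (∀ l, ∃ k : ℤ, e' l = -w j0 (σ l) + k) ∧
      Par (fun j => if j = j0 then 0 else (β j)⁻¹) P'
        (Function.update w j0 (fun l => ⌈e l⌉ - e l)) e' := by
  classical
  set c : Fin r → ℤ := fun l => ⌈e l⌉ with hc
  set Cc : ℕ := ∑ l, (c l).natAbs with hCc
  have hcC : ∀ l, 0 ≤ c l + Cc := by
    intro l
    have h1 : (c l).natAbs ≤ Cc := single_le_sum (f := fun l => (c l).natAbs)
      (fun _ _ => Nat.zero_le _) (mem_univ l)
    omega
  set a : Fin r → ℕ := fun l => (c l + Cc).toNat with ha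
  have hac : ∀ l, ((a l : ℕ) : ℤ) = c l + Cc := fun l => Int.toNat_of_nonneg (hcC l)
  have hacR : ∀ l, ((a l : ℕ) : ℝ) = (c l : ℝ) + Cc := fun l => by exact_mod_cast hac l
  set A0 : Matrix (Fin r) (Fin r) K[X] := Matrix.diagonal (fun l => X ^ a l) with hA0
  have hmapdet : ∀ (A : Matrix (Fin r) (Fin r) K), (A.map (C : K →+* K[X])).det = C A.det := by
    intro A
    exact ((C : K →+* K[X]).map_det A).symm
  have hevdet : ∀ (A : Matrix (Fin r) (Fin r) K[X]) (b : K), (A.map (eval b)).det = eval b A.det := by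
    intro A b
    exact ((evalRingHom b).map_det A).symm
  have hA0det : A0.det = X ^ (∑ l, a l) := by
    rw [hA0, Matrix.det_diagonal, prod_pow_eq_pow_sum]
  set B0 : Matrix (Fin r) (Fin r) K[X] := A0 * (P j0).map C with hB0
  have hB0det : B0.det = X ^ (∑ l, a l) * C (P j0).det := by
    rw [hB0, Matrix.det_mul, hA0det, hmapdet]
  have hB0ne : B0.det ≠ 0 := by
    rw [hB0det]
    exact mul_ne_zero (pow_ne_zero _ X_ne_zero) (C_ne_zero.2 (h.det j0))
  obtain ⟨G, e1, σ, hG, hbd, hint, hsum⟩ := exists_reduced B0 hB0ne (fun l => -w j0 l)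
  have hGev : ∀ b, eval b G.det ≠ 0 := fun b => (hG.map (evalRingHom b)).ne_zero
  have hbj : ∀ j, j ≠ j0 → β j ≠ 0 := fun j hj hz => hj (hβ (by rw [hz, h0]))
  let Aj : Fin n → Matrix (Fin r) (Fin r) K[X] := fun j => G * A0 * (P j).map C
  let P' : Fin n → Matrix (Fin r) (Fin r) K := fun j =>
    if j = j0 then G.map (eval 0) else (Aj j).map (eval (β j)⁻¹)
  have hP'0 : P' j0 = G.map (eval 0) := if_pos rfl
  have hP'j : ∀ j, j ≠ j0 → P' j = (Aj j).map (eval (β j)⁻¹) := fun j hj => if_neg hj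
  have hP'det : ∀ j, (P' j).det ≠ 0 := by
    intro j
    by_cases hj : j = j0
    · rw [hj, hP'0, hevdet]
      exact hGev _
    · rw [hP'j j hj, hevdet, Matrix.det_mul, Matrix.det_mul, hA0det, hmapdet, eval_mul, eval_mul,
        eval_pow, eval_X, eval_C]
      exact mul_ne_zero (mul_ne_zero (hGev _) (pow_ne_zero _ (inv_ne_zero (hbj j hj)))) (h.det j)
  set w0 : Fin r → ℝ := fun l => (⌈e l⌉ : ℝ) - e l with hw0
  have hw0' : ∀ l, 0 ≤ w0 l ∧ w0 l ≤ 1 := by
    intro l
    have h1 := Int.le_ceil (e l)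
    have h2 := Int.ceil_lt_add_one (e l)
    constructor
    · rw [hw0]
      simp only
      linarith
    · rw [hw0]
      simp only
      linarith
  -- the main step
  have main : ∀ (s : ℕ) (V : Matrix (Fin s) (Fin r) K[X]), (∃ J, mnr V J ≠ 0) →
      ∀ τ : Fin n → ℝ, (∀ j J, mnr (V * (P' j).map C) J ≠ 0 →
        τ j ≤ (mnr (V * (P' j).map C) J).rootMultiplicity (if j = j0 then 0 else (β j)⁻¹) +
          ∑ i, Function.update w j0 w0 j (J i)) →
      ∃ (U : Matrix (Fin s) (Fin r) K[X]) (τ' : Fin n → ℝ) (J' : Fin s → Fin r),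
        (∃ J, mnr U J ≠ 0) ∧ mnr V J' ≠ 0 ∧
        (∀ j J, mnr (U * (P j).map C) J ≠ 0 →
          τ' j ≤ (mnr (U * (P j).map C) J).rootMultiplicity (β j) + ∑ i, w j (J i)) ∧
        ∀ J, mnr U J ≠ 0 → ((mnr U J).natDegree : ℝ) + ∑ i, e (J i) - ∑ j, τ' j ≤
          (mnr V J').natDegree + ∑ i, (e1 (J' i) - Cc) - ∑ j, τ j := by
    intro s V hV τ hτ
    obtain ⟨J', hJ', hmax⟩ := exists_max_height V hV e1
    set WA : Matrix (Fin s) (Fin r) K[X] := V * G * A0 with hWA
    set D : ℕ := ∑ i, ∑ l, (WA i l).natDegree with hD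
    have hDle : ∀ i l, (WA i l).natDegree ≤ D := by
      intro i l
      have h1 : (WA i l).natDegree ≤ ∑ l, (WA i l).natDegree :=
        single_le_sum (f := fun l => (WA i l).natDegree) (fun _ _ => Nat.zero_le _) (mem_univ l)
      exact h1.trans (single_le_sum (f := fun i => ∑ l, (WA i l).natDegree)
        (fun _ _ => Nat.zero_le _) (mem_univ i))
    have hDle' : ∀ (j : Fin n) i l, ((WA * (P j).map C) i l).natDegree ≤ D := by
      intro j i l
      rw [Matrix.mul_apply]
      refine natDegree_sum_le_of_forall_le _ _ fun k _ => ?_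
      rw [Matrix.map_apply]
      exact (natDegree_mul_C_le _ _).trans (hDle i k)
    set U := WA.map (reflect D) with hU
    have hUm : ∀ J, mnr U J = reflect (s * D) (mnr WA J) ∧ (mnr WA J).natDegree ≤ s * D :=
      fun J => mnr_reflect WA D hDle J
    have hUPm : ∀ j J, mnr (U * (P j).map C) J = reflect (s * D) (mnr (WA * (P j).map C) J) ∧
        (mnr (WA * (P j).map C) J).natDegree ≤ s * D := by
      intro j J
      rw [hU, reflect_mul_const]
      exact mnr_reflect _ D (hDle' j) J
    have hWP : ∀ j, WA * (P j).map C = V * Aj j := by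
      intro j
      simp only [hWA, Aj, Matrix.mul_assoc]
    refine ⟨U, fun j => if j = j0 then s * D - ((mnr V J').natDegree + ∑ i, e1 (J' i)) else τ j, J',
      ?_, hJ', ?_, ?_⟩
    · have h1 : ∃ J, mnr (V * (G * A0)) J ≠ 0 := exists_mnr_mul' hV (by
        rw [Matrix.det_mul, hA0det]
        exact mul_ne_zero hG.ne_zero (pow_ne_zero _ X_ne_zero))
      obtain ⟨J, hJ⟩ := h1
      rw [← Matrix.mul_assoc] at hJ
      refine ⟨J, ?_⟩
      rw [(hUm J).1]
      exact fun h2 => hJ (reflect_eq_zero_iff.1 h2)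
    · intro j J hJ
      rw [(hUPm j J).1] at hJ ⊢
      have hJ1 : mnr (WA * (P j).map C) J ≠ 0 := fun h2 => hJ (by rw [h2, reflect_zero])
      by_cases hj : j = j0
      · subst hj
        dsimp only
        rw [if_pos rfl, h0]
        have h1 := X_pow_dvd_reflect (hUPm j J).2
        have h2 : s * D - (mnr (WA * (P j).map C) J).natDegree ≤
            (reflect (s * D) (mnr (WA * (P j).map C) J)).rootMultiplicity 0 := by
          rw [le_rootMultiplicity_iff hJ, C_0, sub_zero]
          exact h1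
        have h3 : ((s * D : ℕ) : ℝ) - (mnr (WA * (P j).map C) J).natDegree ≤
            ((reflect (s * D) (mnr (WA * (P j).map C) J)).rootMultiplicity 0 : ℕ) := by
          have h4 := (hUPm j J).2
          have h5 : s * D ≤ (reflect (s * D) (mnr (WA * (P j).map C) J)).rootMultiplicity 0 +
            (mnr (WA * (P j).map C) J).natDegree := by omega
          have h6 : ((s * D : ℕ) : ℝ) ≤
            ((reflect (s * D) (mnr (WA * (P j).map C) J)).rootMultiplicity 0 +
            (mnr (WA * (P j).map C) J).natDegree : ℕ) := by exact_mod_cast h5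
          push_cast at h6 ⊢
          linarith
        have h4 : WA * (P j).map C = V * (G * B0) := by
          rw [hWP, hB0]
          simp only [Aj, Matrix.mul_assoc]
        obtain ⟨J2, hJ2, hle⟩ := degree_mul_le V (G * B0) (fun l => -w j l) e1 hbd J
          (by rw [← h4]; exact hJ1)
        rw [← h4, sum_neg_distrib] at hle
        have h5 := hmax J2 hJ2
        push_cast at h3
        linarith
      · dsimp only
        rw [if_neg hj]
        have hg : (β j)⁻¹ ≠ 0 := inv_ne_zero (hbj j hj)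
        obtain ⟨R, hR⟩ := factor (Aj j) (β j)⁻¹ (by rw [← hP'j j hj]; exact hP'det j)
        rw [← hP'j j hj] at hR
        have h4 : WA * (P j).map C = V * (P' j).map C * (1 + (X - C (β j)⁻¹) • R) := by
          rw [hWP, Matrix.mul_assoc V, ← hR]
        have h5 := order_mul (V * (P' j).map C) (β j)⁻¹ R (w j) (fun l l' => by
          linarith [(h.nn j l).2, (h.nn j l').1]) (τ j) (fun J hJ => by
            have := hτ j J hJ
            rwa [Function.update_of_ne hj, if_neg hj] at this) J (by rw [← h4]; exact hJ1)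
        rw [← h4] at h5
        have h6 := pow_dvd_reflect hJ1 hg (hUPm j J).2
          (pow_rootMultiplicity_dvd (mnr (WA * (P j).map C) J) (β j)⁻¹)
        rw [inv_inv, ← le_rootMultiplicity_iff hJ] at h6
        have h7 : ((mnr (WA * (P j).map C) J).rootMultiplicity (β j)⁻¹ : ℝ) ≤
            ((reflect (s * D) (mnr (WA * (P j).map C) J)).rootMultiplicity (β j) : ℝ) := by
          exact_mod_cast h6
        linarith
    · intro J hJ
      rw [(hUm J).1] at hJ ⊢
      have hJ1 : mnr WA J ≠ 0 := fun h2 => hJ (by rw [h2, reflect_zero])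
      have h1 : mnr WA J = (∏ i, X ^ a (J i)) * mnr (V * G) J := by
        rw [hWA, hA0, mnr_mul_diagonal]
      have hG0 : mnr (V * G) J ≠ 0 := by
        rw [h1] at hJ1
        exact right_ne_zero_of_mul hJ1
      have h2 : X ^ (∑ i, a (J i) + (mnr (V * G) J).rootMultiplicity 0) ∣ mnr WA J := by
        rw [h1, prod_pow_eq_pow_sum, pow_add]
        refine mul_dvd_mul_left _ ?_
        have := pow_rootMultiplicity_dvd (mnr (V * G) J) 0
        rwa [C_0, sub_zero] at this
      have h3 := natDegree_reflect_add_le hJ1 (hUm J).2 h2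
      have h4 : (((reflect (s * D) (mnr WA J)).natDegree : ℕ) : ℝ) + (∑ i, (a (J i) : ℝ) +
          ((mnr (V * G) J).rootMultiplicity (0 : K) : ℕ)) ≤ s * D := by exact_mod_cast h3
      -- the new finite point
      obtain ⟨R, hR⟩ := factor G (0 : K) (by rw [← hP'0]; exact hP'det j0)
      rw [← hP'0] at hR
      have h5 : V * G = V * (P' j0).map C * (1 + (X - C (0 : K)) • R) := by
        rw [Matrix.mul_assoc V, ← hR]
      have h6 := order_mul (V * (P' j0).map C) (0 : K) R w0 (fun l l' => by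
        linarith [(hw0' l).2, (hw0' l').1]) (τ j0) (fun J hJ => by
          have := hτ j0 J hJ
          rwa [Function.update_self, if_pos rfl] at this) J (by rw [← h5]; exact hG0)
      rw [← h5] at h6
      have h7 : ∑ i, (a (J i) : ℝ) = ∑ i, (w0 (J i) + e (J i)) + s * Cc := by
        have h8 : ∀ i, (a (J i) : ℝ) = (w0 (J i) + e (J i)) + Cc := by
          intro i
          rw [hacR, hw0]
          simp only [hc]
          ring
        rw [sum_congr rfl fun i _ => h8 i, sum_add_distrib, sum_const, card_univ, Fintype.card_fin,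
          nsmul_eq_mul]
      rw [sum_add_distrib] at h7
      have h8 : ∑ j, (if j = j0 then (s : ℝ) * D - ((mnr V J').natDegree + ∑ i, e1 (J' i))
          else τ j) = ∑ j, τ j - τ j0 + (s * D - ((mnr V J').natDegree + ∑ i, e1 (J' i))) := by
        rw [← add_sum_erase univ _ (mem_univ j0), if_pos rfl,
          ← add_sum_erase univ τ (mem_univ j0)]
        rw [sum_congr rfl fun j hj => if_neg (ne_of_mem_erase hj)]
        ring
      rw [h8, sum_sub_distrib, sum_const, card_univ, Fintype.card_fin, nsmul_eq_mul]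
      linarith
  refine ⟨P', fun l => e1 l - Cc, σ, fun l => ?_, hP'det, ?_, ?_, ?_, ?_⟩
  · obtain ⟨k, hk⟩ := hint l
    exact ⟨k - Cc, by dsimp only; rw [hk]; push_cast; ring⟩
  · intro j l
    by_cases hj : j = j0
    · rw [hj, Function.update_self]
      exact hw0' l
    · rw [Function.update_of_ne hj]
      exact h.nn j l
  · have hdegdet : B0.det.natDegree = ∑ l, a l := by
      rw [hB0det, natDegree_mul (pow_ne_zero _ X_ne_zero) (C_ne_zero.2 (h.det j0)), natDegree_C,
        natDegree_X_pow, add_zero]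
    have h1 : ∑ l, w0 l = ∑ l, (a l : ℝ) - r * Cc - ∑ l, e l := by
      have h8 : ∀ l, w0 l = (a l : ℝ) - Cc - e l := by
        intro l
        rw [hacR, hw0]
        simp only [hc]
        ring
      rw [sum_congr rfl fun l _ => h8 l, sum_sub_distrib, sum_sub_distrib, sum_const, card_univ,
        Fintype.card_fin, nsmul_eq_mul]
    rw [sum_sub_distrib, hsum, hdegdet, sum_const, card_univ, Fintype.card_fin, nsmul_eq_mul,
      ← add_sum_erase univ _ (mem_univ j0), Function.update_self, h1, ← h.sum,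
      ← add_sum_erase univ (fun j => ∑ l, w j l) (mem_univ j0)]
    have h2 : ∑ j ∈ univ.erase j0, ∑ l, Function.update w j0 w0 j l =
        ∑ j ∈ univ.erase j0, ∑ l, w j l := by
      refine sum_congr rfl fun j hj => ?_
      rw [Function.update_of_ne (ne_of_mem_erase hj)]
    rw [h2, sum_neg_distrib]
    push_cast
    ring
  · intro s V hV τ hτ
    obtain ⟨U, τ', J', hU, hJ', hc1, hc2⟩ := main s V hV τ hτ
    obtain ⟨J, hJ, hle⟩ := h.ss s U hU τ' hc1
    refine ⟨J', hJ', ?_⟩
    have := hc2 J hJ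
    linarith
  · intro s hs hsr V hV τ hτ
    obtain ⟨U, τ', J', hU, hJ', hc1, hc2⟩ := main s V hV τ hτ
    obtain ⟨J, hJ, hle⟩ := h.st s hs hsr U hU τ' hc1
    refine ⟨J', hJ', ?_⟩
    have := hc2 J hJ
    linarith

/-- **Stable weights: infinity can be exchanged with a finite point.** -/
theorem stableWeights_swap {x : Fin n → Fin r → ℝ} {y : Fin r → ℝ} (h : StableWeights K x y)
    (j0 : Fin n) :
    StableWeights K (Function.update x j0 (fun l => -y l)) (fun l => -x j0 l) := by
  classical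
  obtain ⟨β, P, w, e, hβ, hx, ⟨ρ, hρ⟩, hpar⟩ := StableWeights.par h
  have h1 := Par.translate hpar (β j0)
  have hβ' : Function.Injective (fun j => β j - β j0) := fun i j hij => hβ (by
    simpa using hij)
  obtain ⟨P', e', σ, he', h2⟩ := Par.swap hβ' h1 j0 (sub_self _)
  refine h2.stableWeights ?_ (fun j => ?_) ?_
  · intro i j hij
    simp only at hij
    by_cases hi : i = j0
    · by_cases hj : j = j0
      · rw [hi, hj]
      · rw [if_pos hi, if_neg hj] at hij
        exfalso
        have h3 := inv_eq_zero.1 hij.symm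
        exact hj (hβ (sub_eq_zero.1 h3))
    · by_cases hj : j = j0
      · rw [if_neg hi, if_pos hj] at hij
        exfalso
        have h3 := inv_eq_zero.1 hij
        exact hi (hβ (sub_eq_zero.1 h3))
      · rw [if_neg hi, if_neg hj] at hij
        exact hβ' (inv_injective hij)
  · by_cases hj : j = j0
    · subst hj
      refine ⟨ρ, fun l => ?_⟩
      obtain ⟨m, hm⟩ := hρ l
      refine ⟨⌈e l⌉ - m, ?_⟩
      rw [Function.update_self, Function.update_self, hm]
      push_cast
      ring
    · obtain ⟨σ1, h3⟩ := hx j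
      refine ⟨σ1, fun l => ?_⟩
      obtain ⟨m, hm⟩ := h3 l
      exact ⟨m, by rw [Function.update_of_ne hj, Function.update_of_ne hj, hm]⟩
  · obtain ⟨σ1, h3⟩ := hx j0
    refine ⟨σ.trans σ1, fun l => ?_⟩
    obtain ⟨k, hk⟩ := he' l
    obtain ⟨m, hm⟩ := h3 (σ l)
    refine ⟨k - m, ?_⟩
    rw [hk, hm, Equiv.trans_apply]
    push_cast
    ring

end Pool.Agent.R340.MI
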