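import Pool.Agent.R340.MI.Sys
import Pool.Agent.R340.HK.Res

set_option autoImplicit false

/-!
Three points: the inequality for line subbundles and the symmetry at a resonance.
-/

open Finset

namespace Pool.Agent.R340.MI

open Pool.Agent.Y227.SS Pool.Agent.R340.SY
open Pool.Agent.R340.HK (cnt cnt_congr cnt_of exists_of_cnt cnt_le core_contra)

variable {r N : ℕ}

/-- The three points as elements of `Option (Fin 2)`. -/
def idx : Option (Fin 2) → Fin 3
  | some j => j.castSucc
  | none => 2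

lemma sum_idx {M : Type*} [AddCommMonoid M] (f : Fin 3 → M) : ∑ x, f (idx x) = ∑ i, f i := by
  have h0 : Fin.castSucc (0 : Fin 2) = 0 := by decide
  have h1 : Fin.castSucc (1 : Fin 2) = 1 := by decide
  rw [Fintype.sum_option, Fin.sum_univ_two, Fin.sum_univ_three]
  simp only [idx, h0, h1]
  rw [add_comm, add_assoc]

lemma rat_good {E : Fin 3 → Fin r → ℤ} (h : Good N E) (a : ℤ) (ha : IsCoprime a (N : ℤ)) :
    StableWeights ℂ (fun (j : Fin 2) l => (a : ℝ) * (((E j.castSucc l : ℚ) / N : ℚ) : ℝ))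
      (fun l => (a : ℝ) * ((-((E 2 l : ℚ) / N) : ℚ) : ℝ)) := by
  have h2 := h a ha
  have e1 : (fun (j : Fin 2) (l : Fin r) => (a : ℝ) * (((E j.castSucc l : ℚ) / N : ℚ) : ℝ)) =
      fun (j : Fin 2) l => (a : ℝ) * ((E j.castSucc l : ℝ) / N) := by
    funext j l
    push_cast
    rfl
  have e2 : (fun (l : Fin r) => (a : ℝ) * ((-((E 2 l : ℚ) / N) : ℚ) : ℝ)) =
      fun l => (a : ℝ) * (((-E 2 l : ℤ) : ℝ) / N) := by
    funext l
    push_cast
    ring
  rw [e1, e2]
  exact h2

/-- The inequality for the residues. -/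
theorem Good.residues (hN : 0 < N) (hr : 2 ≤ r) {E : Fin 3 → Fin r → ℤ} (h : Good N E)
    {β : Fin 3 → ℤ} (hβ : (N : ℤ) ∣ ∑ i, β i) (u : ℤ) (hu : IsCoprime u (N : ℤ)) :
    (r : ℤ) * N ≤ ∑ i, ∑ l, (u * (E i l - β i)) % N := by
  have hNq : (0 : ℚ) < N := by exact_mod_cast hN
  obtain ⟨m, hm⟩ := h.sum hN
  obtain ⟨s, hs⟩ := hβ
  let lam : Fin 2 → Fin r → ℚ := fun j l => (E j.castSucc l : ℚ) / N
  let phi : Fin r → ℚ := fun l => -((E 2 l : ℚ) / N)
  let ε : Option (Fin 2) → ℚ := fun x => (β (idx x) : ℚ) / N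
  have hexpo : ∀ x l, expo lam phi x l = (E (idx x) l : ℚ) / N := by
    intro x l
    cases x with
    | none =>
      simp only [expo, phi, idx, neg_neg]
    | some j => rfl
  have h0 : Fin.castSucc (0 : Fin 2) = 0 := by decide
  have h1 : Fin.castSucc (1 : Fin 2) = 1 := by decide
  have hF : ∑ j, ∑ l, lam j l = ∑ l, phi l + m := by
    have h3 : ((∑ i, ∑ l, E i l : ℤ) : ℚ) = ((N * m : ℤ) : ℚ) := by rw [hm]
    rw [Fin.sum_univ_three] at h3
    push_cast at h3
    rw [Fin.sum_univ_two]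
    simp only [lam, phi, h0, h1, ← sum_div, sum_neg_distrib]
    field_simp
    linarith
  have hε : ∑ x, ε x = s := by
    have h3 := sum_idx (fun i => (β i : ℚ) / N)
    simp only [ε]
    rw [h3, ← sum_div]
    have h4 : ((∑ i, β i : ℤ) : ℚ) = ((N * s : ℤ) : ℚ) := by rw [hs]
    push_cast at h4
    rw [h4]
    field_simp
  have key := fract_ge hr u m s hF ε hε (rat_good h u hu)
  have h2 : ∀ x l, Int.fract ((u : ℚ) * (expo lam phi x l - ε x)) =
      (((u * (E (idx x) l - β (idx x))) % N : ℤ) : ℚ) / N := by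
    intro x l
    refine fract_eq hN (z := u * (E (idx x) l - β (idx x))) ?_
    rw [hexpo]
    simp only [ε]
    push_cast
    field_simp
  simp only [h2, ← sum_div] at key
  rw [le_div_iff₀ hNq, sum_idx (fun i => ∑ l, (((u * (E i l - β i)) % N : ℤ) : ℚ))] at key
  exact_mod_cast key

/-- The number of exponents congruent to the chosen ones is at most the rank. -/
theorem Good.resonance_le (hN : 0 < N) (hr : 2 ≤ r) {E : Fin 3 → Fin r → ℤ} (h : Good N E)
    {β : Fin 3 → ℤ} (hβ : (N : ℤ) ∣ ∑ i, β i) : ∑ i, cnt N (E i) (β i) ≤ r := by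
  classical
  have h1 := h.residues hN hr hβ 1 isCoprime_one_left
  have h2 := h.residues hN hr hβ (-1) isCoprime_one_left.neg_left
  simp only [one_mul, neg_mul] at h1 h2
  have h3 : ∀ i l, (E i l - β i) % (N : ℤ) + (-(E i l - β i)) % (N : ℤ) =
      N - N * (if (N : ℤ) ∣ E i l - β i then 1 else 0) := by
    intro i l
    rw [Pool.Agent.R340.P3.emod_neg_add hN]
    split_ifs <;> ring
  have h4 : ∑ i, ∑ l, ((E i l - β i) % (N : ℤ) + (-(E i l - β i)) % (N : ℤ)) =
      N * (3 * r) - N * ∑ i, (cnt N (E i) (β i) : ℤ) := by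
    simp only [h3, sum_sub_distrib, sum_const, card_univ, Fintype.card_fin, nsmul_eq_mul, ← mul_sum]
    have h5 : ∀ i, ∑ l, (if (N : ℤ) ∣ E i l - β i then (1 : ℤ) else 0) = (cnt N (E i) (β i) : ℤ) := by
      intro i
      unfold cnt
      rw [card_filter]
      push_cast
      rfl
    simp only [h5]
    push_cast
    ring
  simp only [sum_add_distrib] at h4
  have hNz : (0 : ℤ) < N := by exact_mod_cast hN
  have h6 : (N : ℤ) * ∑ i, (cnt N (E i) (β i) : ℤ) ≤ N * r := by linarith
  have h7 := le_of_mul_le_mul_left h6 hNz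
  exact_mod_cast h7

/-- **The symmetry at a resonance.** -/
theorem Good.symm (hN : 0 < N) (hr : 2 ≤ r) {E : Fin 3 → Fin r → ℤ} (h : Good N E)
    (hNN : N.Prime ∨ ∀ p : ℕ, p.Prime → p ∣ N → 4 * r + 1 < p)
    {β : Fin 3 → ℤ} (hβ : (N : ℤ) ∣ ∑ i, β i) (hC : r ≤ ∑ i, cnt N (E i) (β i)) (t : ℤ) :
    ∑ i, cnt N (E i) (β i + t) = ∑ i, cnt N (E i) (β i - t) := by
  classical
  let D : Option (Fin 2) → Fin r → ℤ := fun x l => E (idx x) l - β (idx x)
  have hsum : ∀ (P : ℤ → Prop) [DecidablePred P],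
      (univ.filter fun s : Option (Fin 2) × Fin r => P (D s.1 s.2)).card =
        ∑ i, (univ.filter fun l => P (E i l - β i)).card := by
    intro P _
    rw [card_filter, Fintype.sum_prod_type' (fun x l => if P (D x l) then 1 else 0)]
    simp only [D]
    rw [sum_idx (fun i => ∑ l, if P (E i l - β i) then 1 else 0)]
    refine sum_congr rfl fun i _ => ?_
    rw [card_filter]
  have hM : (univ.filter fun s : Option (Fin 2) × Fin r => ¬ (N : ℤ) ∣ D s.1 s.2).card ≤ 2 * r := by
    rw [hsum (fun z => ¬ (N : ℤ) ∣ z)]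
    have h1 : ∀ i, (univ.filter fun l => ¬ (N : ℤ) ∣ E i l - β i).card + cnt N (E i) (β i) = r := by
      intro i
      unfold cnt
      rw [add_comm, card_filter_add_card_filter_not, card_univ, Fintype.card_fin]
    have h2 : ∑ i, ((univ.filter fun l => ¬ (N : ℤ) ∣ E i l - β i).card + cnt N (E i) (β i)) = 3 * r := by
      rw [sum_congr rfl fun i _ => h1 i, sum_const, card_univ, Fintype.card_fin, smul_eq_mul]
    rw [sum_add_distrib] at h2
    omega
  have key := symmetric_of_residues hN D (fun u hu => by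
    have h1 := h.residues hN hr hβ u hu
    simp only [D]
    rw [sum_idx (fun i => ∑ l, (u * (E i l - β i)) % (N : ℤ))]
    exact h1) hM hNN t
  rw [hsum (fun z => (N : ℤ) ∣ z - t), hsum (fun z => (N : ℤ) ∣ z + t)] at key
  have e1 : ∀ i, cnt N (E i) (β i + t) = (univ.filter fun l => (N : ℤ) ∣ E i l - β i - t).card := by
    intro i
    unfold cnt
    congr 1
    ext l
    rw [mem_filter, mem_filter, sub_add_eq_sub_sub]
  have e2 : ∀ i, cnt N (E i) (β i - t) = (univ.filter fun l => (N : ℤ) ∣ E i l - β i + t).card := by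
    intro i
    unfold cnt
    congr 1
    ext l
    rw [mem_filter, mem_filter]
    have : E i l - (β i - t) = E i l - β i + t := by ring
    rw [this]
  rw [sum_congr rfl fun i _ => e1 i, sum_congr rfl fun i _ => e2 i]
  exact key

end Pool.Agent.R340.MI
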