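import Pool.Agent.R340.MI.Single

set_option autoImplicit false

/-!
The inequality for one exponent, for all the points, and the systems of differential equations.
-/

open Finset

namespace Pool.Agent.R340.MI

open Pool.Agent.W280.PC Pool.Agent.R927 Pool.Agent.TH571.PCV Pool.Agent.Y227.SS
open Pool.Agent.W432.PC
open Pool.Agent.R340.HK (hinge_of_stable)

universe u

variable {r N : ℕ}

/-- The inequality for one exponent at the point with the number zero. -/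
theorem Good.single_zero (hN : 0 < N) {E : Fin 3 → Fin r → ℤ} (h : Good N E) (k : Fin r) :
    ∑ i, ∑ j, gam ((E 1 i - E 1 j : ℤ) / N) + ∑ i, ∑ j, gam ((E 2 i - E 2 j : ℤ) / N) +
        2 * r * ∑ l, gam ((E 0 k - E 0 l : ℤ) / N) ≤
      (r : ℚ) ^ 2 + ∑ i, ∑ j, gam ((E 0 i - E 0 j : ℤ) / N) +
        2 * ∑ i, ∑ j, gam ((E 0 k + E 1 i + E 2 j : ℤ) / N) ∧
    ((∃ i j, ¬ (N : ℤ) ∣ E 0 k - E 0 i ∧ ¬ (N : ℤ) ∣ E 0 k - E 0 j ∧ ¬ (N : ℤ) ∣ E 0 i - E 0 j) →
      ∑ i, ∑ j, gam ((E 1 i - E 1 j : ℤ) / N) + ∑ i, ∑ j, gam ((E 2 i - E 2 j : ℤ) / N) +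
        2 * r * ∑ l, gam ((E 0 k - E 0 l : ℤ) / N) <
      (r : ℚ) ^ 2 + ∑ i, ∑ j, gam ((E 0 i - E 0 j : ℤ) / N) +
        2 * ∑ i, ∑ j, gam ((E 0 k + E 1 i + E 2 j : ℤ) / N)) := by
  classical
  have hNq : (N : ℚ) ≠ 0 := by exact_mod_cast hN.ne'
  obtain ⟨m, hm⟩ := h.sum hN
  rw [Fin.sum_univ_three] at hm
  let δ : Fin r → ℤ := fun l => if l = k then N * m else 0
  have hδ : ∀ l, (N : ℤ) ∣ δ l := fun l => by
    simp only [δ]
    split_ifs
    · exact dvd_mul_right _ _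
    · exact dvd_zero _
  have hδs : ∑ l, δ l = N * m := by
    simp only [δ, sum_ite_eq', mem_univ, if_true]
  let E' : Fin 3 → Fin r → ℤ := fun i l => if i = 2 then E 2 l - δ l else E i l
  have h0 : E' 0 = E 0 := by
    funext l
    simp [E']
  have h1 : E' 1 = E 1 := by
    funext l
    simp [E']
  have h2 : E' 2 = fun l => E 2 l - δ l := by
    funext l
    simp [E']
  have hE' : Good N E' := h.congr hN fun i l => by
    by_cases hi : i = 2
    · subst hi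
      rw [h2]
      simpa using hδ l
    · simp only [E', if_neg hi, sub_self, dvd_zero]
  have hc0 : Fin.castSucc (0 : Fin 2) = 0 := by decide
  have hc1 : Fin.castSucc (1 : Fin 2) = 1 := by decide
  have key := single_ineq hN (E' 0) (E' 1) (fun l => -E' 2 l) (by
    rw [h0, h1, h2]
    simp only [neg_sub, sum_sub_distrib, hδs]
    linarith) k (fun a ha τ hτ => by
      have := hinge_of_stable hN (fun j : Fin 2 => E' j.castSucc) (fun l => -E' 2 l) a (hE' a ha)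
        (j0 := 0) (j1 := 1) (by decide) τ hτ
      rw [hc0, hc1] at this
      exact this)
  rw [h0, h1, h2] at key
  have e1 : ∀ i j, gam ((-(E 2 i - δ i) - -(E 2 j - δ j) : ℤ) / N) = gam ((E 2 i - E 2 j : ℤ) / N) := by
    intro i j
    obtain ⟨s, hs⟩ := hδ i
    obtain ⟨t, ht⟩ := hδ j
    have h3 : ((-(E 2 i - δ i) - -(E 2 j - δ j) : ℤ) : ℚ) / N =
        -(((E 2 i - E 2 j : ℤ) : ℚ) / N) + ((s - t : ℤ) : ℚ) := by
      rw [hs, ht]
      push_cast
      field_simp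
      ring
    rw [h3, gam_add_int, gam_neg]
  have e2 : ∀ i j, gam ((E 0 k + E 1 i - -(E 2 j - δ j) : ℤ) / N) =
      gam ((E 0 k + E 1 i + E 2 j : ℤ) / N) := by
    intro i j
    obtain ⟨t, ht⟩ := hδ j
    have h3 : ((E 0 k + E 1 i - -(E 2 j - δ j) : ℤ) : ℚ) / N =
        ((E 0 k + E 1 i + E 2 j : ℤ) : ℚ) / N + ((-t : ℤ) : ℚ) := by
      rw [ht]
      push_cast
      field_simp
      ring
    rw [h3, gam_add_int]
  simp only [e1, e2] at key
  exact key

/-- The inequality for one exponent at any of the three points. -/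
theorem Good.single (hN : 0 < N) {E : Fin 3 → Fin r → ℤ} (h : Good N E) {x y z : Fin 3}
    (hxy : x ≠ y) (hyz : y ≠ z) (hxz : x ≠ z) (k : Fin r) :
    ∑ i, ∑ j, gam ((E y i - E y j : ℤ) / N) + ∑ i, ∑ j, gam ((E z i - E z j : ℤ) / N) +
        2 * r * ∑ l, gam ((E x k - E x l : ℤ) / N) ≤
      (r : ℚ) ^ 2 + ∑ i, ∑ j, gam ((E x i - E x j : ℤ) / N) +
        2 * ∑ i, ∑ j, gam ((E x k + E y i + E z j : ℤ) / N) ∧
    ((∃ i j, ¬ (N : ℤ) ∣ E x k - E x i ∧ ¬ (N : ℤ) ∣ E x k - E x j ∧ ¬ (N : ℤ) ∣ E x i - E x j) →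
      ∑ i, ∑ j, gam ((E y i - E y j : ℤ) / N) + ∑ i, ∑ j, gam ((E z i - E z j : ℤ) / N) +
        2 * r * ∑ l, gam ((E x k - E x l : ℤ) / N) <
      (r : ℚ) ^ 2 + ∑ i, ∑ j, gam ((E x i - E x j : ℤ) / N) +
        2 * ∑ i, ∑ j, gam ((E x k + E y i + E z j : ℤ) / N)) := by
  have key := (h.swap x).single_zero hN k
  have e0 : Equiv.swap 0 x 0 = x := Equiv.swap_apply_left _ _
  have hcase : (Equiv.swap 0 x 1 = y ∧ Equiv.swap 0 x 2 = z) ∨
      (Equiv.swap 0 x 1 = z ∧ Equiv.swap 0 x 2 = y) := by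
    clear key e0
    revert x y z
    decide
  beta_reduce at key
  rw [e0] at key
  rcases hcase with ⟨h1, h2⟩ | ⟨h1, h2⟩
  · rw [h1, h2] at key
    exact key
  · rw [h1, h2] at key
    have e1 : ∑ i, ∑ j, gam ((E x k + E z i + E y j : ℤ) / N) =
        ∑ i, ∑ j, gam ((E x k + E y i + E z j : ℤ) / N) := by
      rw [sum_comm]
      refine sum_congr rfl fun i _ => sum_congr rfl fun j _ => ?_
      congr 2
      push_cast
      ring
    rw [e1] at key
    refine ⟨?_, fun hh => ?_⟩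
    · have := key.1
      linarith
    · have := key.2 hh
      linarith

/-- There is a residue class modulo `N` such that the `p`-curvature is nonzero at all closed points
of a nonempty open set with large residue characteristic in the class. -/
def BadSys {R : Type*} [CommRing R] {n r : ℕ} (α : Fin n → R) (A : Fin n → Matrix (Fin r) (Fin r) R)
    (N : ℕ) : Prop :=
  ∃ a : ℤ, IsCoprime a (N : ℤ) ∧ ∃ g : R, g ≠ 0 ∧ ∃ P₀ : ℕ,
    ∀ p : ℕ, p.Prime → P₀ < p → (N : ℤ) ∣ a * p + 1 →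
      ∀ (𝔪 : Ideal R) [𝔪.IsMaximal], (p : R) ∈ 𝔪 → g ∉ 𝔪 → ¬ PCurvZeroAt α A 𝔪

theorem good_of_not_bad {R : Type u} [CommRing R] [IsDomain R] [CharZero R] [Algebra.FiniteType ℤ R]
    (α : Fin 2 → R) (hα : ∀ i j, i ≠ j → IsUnit (α i - α j))
    (A : Fin 2 → Matrix (Fin r) (Fin r) R) (hirr : AbsIrreducible α A) (hN : 0 < N)
    (E : Fin 3 → Fin r → ℤ) (hlam : ∀ j : Fin 2, HasExponents (A j) (fun l => (E j.castSucc l : ℚ) / N))
    (hphi : HasExponents (∑ j, A j) (fun l => -((E 2 l : ℚ) / N))) (hbad : ¬ BadSys α A N) :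
    Good N E := by
  have hNq : (N : ℚ) ≠ 0 := by exact_mod_cast hN.ne'
  intro a ha
  have h1 := (final α hα A (fun j l => (E j.castSucc l : ℚ) / N) (fun l => -((E 2 l : ℚ) / N)) hlam
    hphi N hN (fun j l => ⟨E j.castSucc l, by field_simp⟩)
    (fun l => ⟨-E 2 l, by push_cast; field_simp⟩) a).2.1 hirr
  by_contra hst
  apply hbad
  obtain ⟨g, hg, P₀, hP⟩ := h1 (by
    intro h2
    apply hst
    have e1 : (fun (j : Fin 2) (l : Fin r) => (a : ℝ) * (((E j.castSucc l : ℚ) / N : ℚ) : ℝ)) =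
        fun (j : Fin 2) l => (a : ℝ) * ((E j.castSucc l : ℝ) / N) := by
      funext j l
      push_cast
      rfl
    have e2 : (fun (l : Fin r) => (a : ℝ) * ((-((E 2 l : ℚ) / N) : ℚ) : ℝ)) =
        fun l => (a : ℝ) * (((-E 2 l : ℤ) : ℝ) / N) := by
      funext l
      push_cast
      ring
    rw [e1, e2] at h2
    exact h2)
  exact ⟨a, ha, g, hg, P₀, hP⟩

theorem BadSys.not_condII {R : Type*} [CommRing R] [IsDomain R] [CharZero R] [Algebra.FiniteType ℤ R]
    {n : ℕ} {α : Fin n → R} {A : Fin n → Matrix (Fin r) (Fin r) R} (hN : 0 < N)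
    (h : BadSys α A N) : ¬ CondII α A := by
  obtain ⟨a, ha, g, hg, P₀, hP⟩ := h
  exact not_condII_of α A N hN a ha ⟨g, hg, P₀, hP⟩

end Pool.Agent.R340.MI
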