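import Pool.Agent.R340.MI.SysTwist

set_option autoImplicit false

/-!
Systems with three singular points: the symmetry at a resonance.
-/

open Finset

namespace Pool.Agent.R340.MI

open Pool.Agent.Y227.SS Pool.Agent.W432.PC
open Pool.Agent.R340.HK (cnt)

universe u

variable {r : ℕ}

/-- The number of exponents, at all the points, which are congruent to the sum of the chosen exponent
at the same point and of `s`. -/
def shifted (lam : Fin 3 → Fin r → ℚ) (κ : Fin 3 → Fin r) (s : ℚ) : ℕ :=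
  (univ.filter fun x : Fin 3 × Fin r => (lam x.1 x.2 - lam x.1 (κ x.1) - s).den = 1).card

theorem sym_of {q : ℕ} (hq : 0 < q) (hr : 2 ≤ r) {E : Fin 3 → Fin r → ℤ} (h : Good q E)
    (hqq : q.Prime ∨ ∀ p : ℕ, p.Prime → p ∣ q → 4 * r + 1 < p)
    {lam : Fin 3 → Fin r → ℚ} {t : Fin 3 → ℚ} (ht : ∑ i, t i = 0)
    (hE : ∀ i l, lam i l = (E i l : ℚ) / q + t i) (κ : Fin 3 → Fin r)
    (hκ : (∑ i, lam i (κ i)).den = 1) (hC : r ≤ shifted lam κ 0) (s : ℚ) :
    shifted lam κ 0 = r ∧ shifted lam κ s = shifted lam κ (-s) := by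
  classical
  have hqq' : (q : ℚ) ≠ 0 := by exact_mod_cast hq.ne'
  have e1 : ∀ (S : ℤ), shifted lam κ ((S : ℚ) / q) = ∑ i, cnt q (E i) (E i (κ i) + S) := by
    intro S
    unfold shifted cnt
    rw [card_filter, Fintype.sum_prod_type' (fun i l =>
      if (lam i l - lam i (κ i) - (S : ℚ) / q).den = 1 then 1 else 0)]
    refine sum_congr rfl fun i _ => ?_
    rw [card_filter]
    refine sum_congr rfl fun l _ => ?_
    have e2 : lam i l - lam i (κ i) - (S : ℚ) / q =
        ((E i l - (E i (κ i) + S) : ℤ) : ℚ) / q := by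
      rw [hE, hE]
      push_cast
      ring
    simp only [e2, den_iff hq]
  have hres : (q : ℤ) ∣ ∑ i, E i (κ i) := by
    rw [← den_iff hq]
    have e3 : ∑ i, lam i (κ i) = ((∑ i, E i (κ i) : ℤ) : ℚ) / q := by
      have : ∑ i, lam i (κ i) = ∑ i, ((E i (κ i) : ℚ) / q + t i) :=
        sum_congr rfl fun i _ => hE i (κ i)
      rw [this, sum_add_distrib, ht, ← sum_div]
      push_cast
      ring
    rwa [← e3]
  have e0 : shifted lam κ 0 = ∑ i, cnt q (E i) (E i (κ i)) := by
    have := e1 0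
    simpa using this
  have hC' : r ≤ ∑ i, cnt q (E i) (E i (κ i)) := by
    rwa [← e0]
  refine ⟨?_, ?_⟩
  · have h1 := h.resonance_le hq hr hres
    rw [← e0] at h1
    omega
  · by_cases hs : ∃ S : ℤ, (q : ℚ) * s = S
    · obtain ⟨S, hS⟩ := hs
      have e4 : s = (S : ℚ) / q := by
        rw [← hS]
        field_simp
      have e5 : -s = ((-S : ℤ) : ℚ) / q := by
        rw [e4]
        push_cast
        ring
      rw [e5, e1, e4, e1]
      have h2 := h.symm hq hr hqq hres hC' S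
      simp only [sub_eq_add_neg] at h2
      exact h2
    · have hz : ∀ s : ℚ, (¬ ∃ S : ℤ, (q : ℚ) * s = S) → shifted lam κ s = 0 := by
        intro s hs
        unfold shifted
        rw [card_eq_zero, filter_eq_empty_iff]
        rintro ⟨i, l⟩ _ h3
        apply hs
        have h4 := Rat.coe_int_num_of_den_eq_one h3
        refine ⟨E i l - E i (κ i) - q * (lam i l - lam i (κ i) - s).num, ?_⟩
        push_cast
        rw [h4, hE, hE]
        field_simp
        ring
      rw [hz s hs, hz (-s) (by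
        rintro ⟨S, hS⟩
        exact hs ⟨-S, by push_cast; linarith⟩)]

/-- The symmetry for systems. -/
theorem sys_sym {R : Type u} [CommRing R] [IsDomain R] [CharZero R] [Algebra.FiniteType ℤ R]
    (α : Fin 2 → R) (hα : ∀ i j, i ≠ j → IsUnit (α i - α j))
    (A : Fin 2 → Matrix (Fin r) (Fin r) R) (hirr : AbsIrreducible α A)
    (lam : Fin 3 → Fin r → ℚ) (hlam : ∀ j : Fin 2, HasExponents (A j) (lam j.castSucc))
    (hphi : HasExponents (∑ j, A j) (fun l => -lam 2 l)) (hr : 2 ≤ r) (κ : Fin 3 → Fin r)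
    (hκ : (∑ i, lam i (κ i)).den = 1) (hC : r ≤ shifted lam κ 0) {q : ℕ} (hq : 0 < q)
    (hqq : q.Prime ∨ ∀ p : ℕ, p.Prime → p ∣ q → 4 * r + 1 < p)
    (h1 : ∀ i l, ∃ m : ℤ, (q : ℚ) * (lam i l - lam i (κ i)) = m)
    (hne : shifted lam κ 0 ≠ r ∨ ∃ s, shifted lam κ s ≠ shifted lam κ (-s)) {B : ℕ}
    (hB : 0 < B) (hBlam : ∀ i l, ∃ m : ℤ, (B : ℚ) * lam i l = m) : BadSys α A B := by
  by_contra hbad
  obtain ⟨E, t, ht, hE⟩ := exists_twist hq lam κ h1 ⟨q * (∑ i, lam i (κ i)).num, by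
    push_cast
    rw [Rat.coe_int_num_of_den_eq_one hκ]⟩
  have key := sym_of hq hr (good_twist α hα A hirr lam hlam hphi hB hBlam hbad hq E t ht hE) hqq ht
    hE κ hκ hC
  rcases hne with h | ⟨s, h⟩
  · exact h (key 0).1
  · exact h (key s).2

end Pool.Agent.R340.MI
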