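import Pool.Agent.R340.MI.Three

set_option autoImplicit false

/-!
Systems with three singular points: twists by systems of rank one.
-/

open Finset

namespace Pool.Agent.R340.MI

open Pool.Agent.Y227.SS Pool.Agent.W432.PC
open Pool.Agent.R340.HK (stableWeights_shift stableWeights_congr cnt)
open Pool.Agent.R340.SY (exists_lift)

universe u

variable {r : ℕ}

/-- The multiples of the exponents after a twist. -/
theorem good_twist {R : Type u} [CommRing R] [IsDomain R] [CharZero R] [Algebra.FiniteType ℤ R]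
    (α : Fin 2 → R) (hα : ∀ i j, i ≠ j → IsUnit (α i - α j))
    (A : Fin 2 → Matrix (Fin r) (Fin r) R) (hirr : AbsIrreducible α A)
    (lam : Fin 3 → Fin r → ℚ) (hlam : ∀ j : Fin 2, HasExponents (A j) (lam j.castSucc))
    (hphi : HasExponents (∑ j, A j) (fun l => -lam 2 l)) {B : ℕ} (hB : 0 < B)
    (hBlam : ∀ i l, ∃ m : ℤ, (B : ℚ) * lam i l = m) (hbad : ¬ BadSys α A B) {N : ℕ} (hN : 0 < N)
    (E : Fin 3 → Fin r → ℤ) (t : Fin 3 → ℚ) (ht : ∑ i, t i = 0)
    (hE : ∀ i l, lam i l = (E i l : ℚ) / N + t i) : Good N E := by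
  have hBq : (B : ℚ) ≠ 0 := by exact_mod_cast hB.ne'
  have hNR : (N : ℝ) ≠ 0 := by exact_mod_cast hN.ne'
  choose F hF using hBlam
  have hF' : ∀ i l, lam i l = (F i l : ℚ) / B := by
    intro i l
    rw [← hF]
    field_simp
  have hg := good_of_not_bad α hα A hirr hB F (fun j => by
    have h1 : (fun l => (F j.castSucc l : ℚ) / B) = lam j.castSucc := funext fun l => (hF' _ l).symm
    rw [h1]
    exact hlam j) (by
    have h1 : (fun l => -((F 2 l : ℚ) / B)) = fun l => -lam 2 l := funext fun l => by rw [hF']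
    rw [h1]
    exact hphi) hbad
  intro a ha
  obtain ⟨a', ha', haa⟩ := exists_lift (q := N) (N := N * B) (Nat.mul_pos hN hB)
    (dvd_mul_right _ _) a ha
  have ha'B : IsCoprime a' (B : ℤ) := IsCoprime.of_isCoprime_of_dvd_right ha' (by
    push_cast; exact dvd_mul_left _ _)
  have h1 := rat_good hg a' ha'B
  obtain ⟨k, hk⟩ := haa
  have c0 : Fin.castSucc (0 : Fin 2) = 0 := by decide
  have c1 : Fin.castSucc (1 : Fin 2) = 1 := by decide
  have h2 := stableWeights_shift (stableWeights_shift h1 0 (-((a' : ℝ) * t 0))) 1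
    (-((a' : ℝ) * t 1))
  have hl : ∀ i l, ((((F i l : ℚ) / B : ℚ) : ℝ)) = (E i l : ℝ) / N + t i := by
    intro i l
    rw [← hF', hE]
    push_cast
    rfl
  have haR : (a' : ℝ) = a + N * k := by
    have : a' = a + N * k := by linarith
    exact_mod_cast this
  refine stableWeights_congr h2 (fun j l => ⟨k * E j.castSucc l, ?_⟩) (fun l => ⟨-(k * E 2 l), ?_⟩)
  · have hj : j = 0 ∨ j = 1 := by omega
    rw [hl]
    rcases hj with rfl | rfl
    · rw [c0, if_pos rfl, if_neg (by decide)]
      rw [haR]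
      push_cast
      field_simp
      ring
    · rw [c1, if_neg (by decide), if_pos rfl]
      rw [haR]
      push_cast
      field_simp
      ring
  · have hl' : ((-((F 2 l : ℚ) / B) : ℚ) : ℝ) = -((E 2 l : ℝ) / N + t 2) := by
      rw [← hl]
      push_cast
      rfl
    rw [hl']
    have ht' : ((∑ i, t i : ℚ) : ℝ) = 0 := by rw [ht]; simp
    rw [Fin.sum_univ_three] at ht'
    push_cast at ht'
    have ht2 : (t 2 : ℝ) = -t 0 - t 1 := by linarith
    rw [haR, ht2]
    push_cast
    field_simp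
    ring

/-- The twist. -/
lemma exists_twist {N : ℕ} (hN : 0 < N) (lam : Fin 3 → Fin r → ℚ) (κ : Fin 3 → Fin r)
    (h1 : ∀ i l, ∃ m : ℤ, (N : ℚ) * (lam i l - lam i (κ i)) = m)
    (h2 : ∃ m : ℤ, (N : ℚ) * ∑ i, lam i (κ i) = m) :
    ∃ (E : Fin 3 → Fin r → ℤ) (t : Fin 3 → ℚ), ∑ i, t i = 0 ∧
      ∀ i l, lam i l = (E i l : ℚ) / N + t i := by
  have hNq : (N : ℚ) ≠ 0 := by exact_mod_cast hN.ne'
  choose m hm using h1
  obtain ⟨s, hs⟩ := h2
  refine ⟨fun i l => if i = 2 then m 2 l + s else m i l,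
    fun i => if i = 2 then -lam 0 (κ 0) - lam 1 (κ 1) else lam i (κ i), ?_, fun i l => ?_⟩
  · rw [Fin.sum_univ_three]
    simp
  · by_cases hi : i = 2
    · subst hi
      simp only [if_true]
      push_cast
      rw [← hm, ← hs, Fin.sum_univ_three]
      field_simp
      ring
    · simp only [if_neg hi]
      rw [← hm]
      field_simp
      ring

/-- The exponents at each of the three points are in three classes of the same multiplicity modulo the
integers, and the three sets of classes are translates of one another; some sum of three exponents,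
one for each point, is an integer. -/
def Exceptional (lam : Fin 3 → Fin r → ℚ) : Prop :=
  ∃ T t : Fin 3 → ℚ, (∀ j j', j ≠ j' → (T j - T j').den ≠ 1) ∧
    (∀ i l, ∃ j, (lam i l - T j - t i).den = 1) ∧
    (∀ i j, 3 * (univ.filter fun l => (lam i l - T j - t i).den = 1).card = r) ∧
    ∃ κ : Fin 3 → Fin r, (∑ i, lam i (κ i)).den = 1

lemma exceptional_of {N : ℕ} (hN : N.Prime) (hr : 2 ≤ r) {E : Fin 3 → Fin r → ℤ} (h : Good N E)
    {lam : Fin 3 → Fin r → ℚ} {t : Fin 3 → ℚ} (ht : ∑ i, t i = 0)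
    (hE : ∀ i l, lam i l = (E i l : ℚ) / N + t i)
    (hmult : ∀ κ : Fin 3 → Fin r, r ≤ ∑ i, mult lam i (κ i)) : Exceptional lam := by
  classical
  have hN0 := hN.pos
  have hNq : (N : ℚ) ≠ 0 := by exact_mod_cast hN0.ne'
  have hr0 : 0 < r := by omega
  have hden : ∀ i l (z : ℤ) (q : ℚ), q = t i → ((lam i l - (z : ℚ) / N - q).den = 1 ↔
      (N : ℤ) ∣ E i l - z) := by
    intro i l z q hq
    rw [← den_iff hN0]
    have : lam i l - (z : ℚ) / N - q = ((E i l - z : ℤ) : ℚ) / N := by
      rw [hE, hq]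
      push_cast
      ring
    rw [this]
  have hm1 : ∀ i k, mult lam i k = cnt N (E i) (E i k) := by
    intro i k
    unfold mult cnt
    congr 1
    ext l
    have e1 : lam i k - lam i l = ((E i k - E i l : ℤ) : ℚ) / N := by
      rw [hE, hE]
      push_cast
      ring
    rw [mem_filter, mem_filter, e1, den_iff hN0, ← dvd_neg, neg_sub]
  -- the minimal multiplicities
  have hmin : ∀ i, ∃ k, ∀ l, cnt N (E i) (E i k) ≤ cnt N (E i) (E i l) := by
    intro i
    obtain ⟨k, -, hk⟩ := exists_min_image (univ : Finset (Fin r)) (fun l => cnt N (E i) (E i l))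
      ⟨⟨0, hr0⟩, mem_univ _⟩
    exact ⟨k, fun l => hk l (mem_univ _)⟩
  choose k hk using hmin
  have hs : r ≤ ∑ i, cnt N (E i) (E i (k i)) := by
    have h1 := hmult k
    simp only [hm1] at h1
    exact h1
  obtain ⟨κ, hκ⟩ := h.nonres hN hr0 (fun i => cnt N (E i) (E i (k i))) (fun i l => hk i l) hs
  obtain ⟨v, hfill, hcard, T, hT, hsame⟩ := h.exceptional hN hr (fun i => cnt N (E i) (E i (k i)))
    (fun i l => hk i l) hs
  choose σ s hσ using hsame
  refine ⟨fun j => (T j : ℚ) / N, fun i => t i + (s i : ℚ) / N, fun j j' hj => ?_, fun i l => ?_,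
    fun i j => ?_, κ, ?_⟩
  · have e1 : (T j : ℚ) / N - (T j' : ℚ) / N = ((T j - T j' : ℤ) : ℚ) / N := by
      push_cast
      ring
    rw [e1, Ne, den_iff hN0]
    exact hT j j' hj
  · obtain ⟨j, hj⟩ := hfill i l
    refine ⟨(σ i).symm j, ?_⟩
    have h1 := hσ i ((σ i).symm j)
    rw [Equiv.apply_symm_apply] at h1
    have e1 : lam i l - (T ((σ i).symm j) : ℚ) / N - (t i + (s i : ℚ) / N) =
        ((E i l - T ((σ i).symm j) - s i : ℤ) : ℚ) / N := by
      rw [hE]
      push_cast
      ring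
    rw [e1, den_iff hN0]
    have h2 := dvd_add hj h1
    have h3 : E i l - v i j + (v i j - T ((σ i).symm j) - s i) = E i l - T ((σ i).symm j) - s i := by
      ring
    rwa [h3] at h2
  · refine Eq.trans ?_ (hcard i (σ i j))
    unfold cnt
    congr 2
    ext l
    have e1 : lam i l - (T j : ℚ) / N - (t i + (s i : ℚ) / N) =
        ((E i l - T j - s i : ℤ) : ℚ) / N := by
      rw [hE]
      push_cast
      ring
    rw [mem_filter, mem_filter, e1, den_iff hN0]
    have h1 := hσ i j
    simp only [mem_univ, true_and]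
    constructor
    · intro h2
      have h3 := dvd_sub h2 h1
      have h4 : E i l - T j - s i - (v i (σ i j) - T j - s i) = E i l - v i (σ i j) := by ring
      rwa [h4] at h3
    · intro h2
      have h3 := dvd_add h2 h1
      have h4 : E i l - v i (σ i j) + (v i (σ i j) - T j - s i) = E i l - T j - s i := by ring
      rwa [h4] at h3
  · have e1 : ∑ i, lam i (κ i) = ((∑ i, E i (κ i) : ℤ) : ℚ) / N := by
      have : ∑ i, lam i (κ i) = ∑ i, ((E i (κ i) : ℚ) / N + t i) :=
        sum_congr rfl fun i _ => hE i (κ i)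
      rw [this, sum_add_distrib, ht, ← sum_div]
      push_cast
      ring
    rw [e1, den_iff hN0]
    exact hκ

/-- Systems such that every choice of one exponent for each point has total multiplicity at least
the rank. -/
theorem sys_three {R : Type u} [CommRing R] [IsDomain R] [CharZero R] [Algebra.FiniteType ℤ R]
    (α : Fin 2 → R) (hα : ∀ i j, i ≠ j → IsUnit (α i - α j))
    (A : Fin 2 → Matrix (Fin r) (Fin r) R) (hirr : AbsIrreducible α A)
    (lam : Fin 3 → Fin r → ℚ) (hlam : ∀ j : Fin 2, HasExponents (A j) (lam j.castSucc))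
    (hphi : HasExponents (∑ j, A j) (fun l => -lam 2 l)) (hr : 2 ≤ r) {N : ℕ} (hN : N.Prime)
    (h1 : ∀ i l l', ∃ m : ℤ, (N : ℚ) * (lam i l - lam i l') = m)
    (h2 : ∀ κ : Fin 3 → Fin r, ∃ m : ℤ, (N : ℚ) * ∑ i, lam i (κ i) = m)
    (hmult : ∀ κ : Fin 3 → Fin r, r ≤ ∑ i, mult lam i (κ i)) (hex : ¬ Exceptional lam) {B : ℕ}
    (hB : 0 < B) (hBlam : ∀ i l, ∃ m : ℤ, (B : ℚ) * lam i l = m) : BadSys α A B := by
  by_contra hbad
  obtain ⟨E, t, ht, hE⟩ := exists_twist hN.pos lam (fun _ => ⟨0, by omega⟩) (fun i l => h1 i l _)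
    (h2 _)
  exact hex (exceptional_of hN hr (good_twist α hα A hirr lam hlam hphi hB hBlam hbad hN.pos E t ht
    hE) ht hE hmult)

end Pool.Agent.R340.MI
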