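import Pool.Agent.R340.MI.Uniform

set_option autoImplicit false

/-!
Three points and exponents of prime denominators, every choice of one exponent for each point having
total multiplicity at least the rank: there are three classes of exponents at each point, and the
three sets of classes are translates of one another.
-/

open Finset

namespace Pool.Agent.R340.MI

open Pool.Agent.Y227.SS
open Pool.Agent.R340.HK (cnt cnt_congr cnt_of exists_of_cnt cnt_le core_contra two_classes)
open Pool.Agent.R340.P3 (SG Same main_res sg_all emod_congr)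

variable {r N : ℕ}

/-- Three pairwise different classes of equal multiplicities which fill everything. -/
lemma three_fill {f : Fin r → ℤ} {m : ℕ} (h3 : 3 * m = r) {v : Fin 3 → ℤ}
    (hv : ∀ j, cnt N f (v j) = m) (hne : ∀ j j', j ≠ j' → ¬ (N : ℤ) ∣ v j - v j') (l : Fin r) :
    ∃ j, (N : ℤ) ∣ f l - v j := by
  classical
  have h1 := card_union_of_disjoint (disj_class (f := f) (hne 0 1 (by decide)))
  have h2 : Disjoint ((univ.filter fun l => (N : ℤ) ∣ f l - v 0) ∪
      (univ.filter fun l => (N : ℤ) ∣ f l - v 1)) (univ.filter fun l => (N : ℤ) ∣ f l - v 2) := by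
    rw [disjoint_union_left]
    exact ⟨disj_class (hne 0 2 (by decide)), disj_class (hne 1 2 (by decide))⟩
  have h4 := card_union_of_disjoint h2
  have e0 := hv 0
  have e1 := hv 1
  have e2 := hv 2
  unfold cnt at e0 e1 e2
  have h5 := (card_eq_iff_eq_univ _).1 (by
    rw [h4, h1, e0, e1, e2, Fintype.card_fin]
    omega : (((univ.filter fun l => (N : ℤ) ∣ f l - v 0) ∪
      (univ.filter fun l => (N : ℤ) ∣ f l - v 1)) ∪
      (univ.filter fun l => (N : ℤ) ∣ f l - v 2)).card = Fintype.card (Fin r))
  have h6 : l ∈ (((univ.filter fun l => (N : ℤ) ∣ f l - v 0) ∪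
      (univ.filter fun l => (N : ℤ) ∣ f l - v 1)) ∪
      (univ.filter fun l => (N : ℤ) ∣ f l - v 2)) := by
    rw [h5]
    exact mem_univ _
  simp only [mem_union, mem_filter, mem_univ, true_and] at h6
  rcases h6 with (h6 | h6) | h6
  · exact ⟨0, h6⟩
  · exact ⟨1, h6⟩
  · exact ⟨2, h6⟩

/-- Sums over the classes. -/
lemma sum_classes {f : Fin r → ℤ} {v : Fin 3 → ℤ}
    (hne : ∀ j j', j ≠ j' → ¬ (N : ℤ) ∣ v j - v j') (hfill : ∀ l, ∃ j, (N : ℤ) ∣ f l - v j)
    (G : ℤ → ℤ) (hG : ∀ a b : ℤ, (N : ℤ) ∣ a - b → G a = G b) :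
    ∑ l, G (f l) = ∑ j, (cnt N f (v j) : ℤ) * G (v j) := by
  classical
  have h1 : ∀ l, G (f l) = ∑ j, if (N : ℤ) ∣ f l - v j then G (v j) else 0 := by
    intro l
    obtain ⟨j, hj⟩ := hfill l
    rw [sum_eq_single j]
    · rw [if_pos hj]
      exact hG _ _ hj
    · intro j' _ hj'
      rw [if_neg]
      intro h2
      apply hne j' j hj'
      have h3 := dvd_sub hj h2
      have h4 : f l - v j - (f l - v j') = v j' - v j := by ring
      rwa [h4] at h3
    · intro h2
      exact absurd (mem_univ _) h2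
  rw [sum_congr rfl fun l _ => h1 l, sum_comm]
  refine sum_congr rfl fun j _ => ?_
  rw [← sum_filter, sum_const, nsmul_eq_mul]
  rfl

/-- The case of two classes at the first point. -/
theorem Good.no_two (hN : N.Prime) (hr : 2 ≤ r) {E : Fin 3 → Fin r → ℤ} (h : Good N E)
    (m : Fin 3 → ℕ) (hm : ∀ i l, cnt N (E i) (E i l) = m i) (hs : ∑ i, m i = r)
    {κ : Fin 3 → Fin r} (hκ : (N : ℤ) ∣ ∑ i, E i (κ i)) : 2 * m 0 ≠ r := by
  intro h2
  have hr0 : 0 < r := by omega
  have hs' := hs
  rw [Fin.sum_univ_three] at hs'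
  have hpos : ∀ i, 0 < m i := fun i => by
    rw [← hm i ⟨0, hr0⟩]
    exact cnt_self_pos _
  have p1 := hpos 1
  have p2 := hpos 2
  have hodd : Odd N := by
    rcases hN.eq_two_or_odd' with h3 | h3
    · exfalso
      subst h3
      have t0 := two_classes (hm 0) hr0
      have t1 := two_classes (hm 1) hr0
      have t2 := two_classes (hm 2) hr0
      omega
    · exact h3
  rw [Fin.sum_univ_three] at hκ
  refine core_contra hodd (hm 1) (hm 2) (hm 0) (by omega) h2 p2 (fun α β γ hα hβ hγ hd t _ => ?_)
    (α := E 1 (κ 1)) (β := E 2 (κ 2)) (γ := E 0 (κ 0))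
    ⟨κ 1, by simp⟩ ⟨κ 2, by simp⟩ ⟨κ 0, by simp⟩ (by
      have : E 1 (κ 1) + E 2 (κ 2) + E 0 (κ 0) = E 0 (κ 0) + E 1 (κ 1) + E 2 (κ 2) := by ring
      rwa [this])
  have h4 : ∑ i, cnt N (E i) ((![γ, α, β] : Fin 3 → ℤ) i) = r := by
    rw [Fin.sum_univ_three]
    simp only [Matrix.cons_val_zero, Matrix.cons_val_one, Matrix.cons_val]
    rw [cnt_of (hm 0) hγ, cnt_of (hm 1) hα, cnt_of (hm 2) hβ]
    exact hs'
  have h5 := h.symm hN.pos hr (Or.inl hN) (β := ![γ, α, β]) (by
    rw [Fin.sum_univ_three]
    simp only [Matrix.cons_val_zero, Matrix.cons_val_one, Matrix.cons_val]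
    have : γ + α + β = α + β + γ := by ring
    rwa [this]) h4.ge t
  simp only [Fin.sum_univ_three, Matrix.cons_val_zero, Matrix.cons_val_one, Matrix.cons_val] at h5
  omega

/-- **The structure of the exponents.** -/
theorem Good.exceptional (hN : N.Prime) (hr : 2 ≤ r) {E : Fin 3 → Fin r → ℤ} (h : Good N E)
    (m : Fin 3 → ℕ) (hm : ∀ i l, m i ≤ cnt N (E i) (E i l)) (hs : r ≤ ∑ i, m i) :
    ∃ v : Fin 3 → Fin 3 → ℤ, (∀ i l, ∃ j, (N : ℤ) ∣ E i l - v i j) ∧
      (∀ i j, 3 * cnt N (E i) (v i j) = r) ∧ Same N v := by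
  classical
  have hr0 : 0 < r := by omega
  have hN0 := hN.pos
  obtain ⟨κ, hκ⟩ := h.nonres hN hr0 m hm hs
  have hu := h.uniform hN hr m hm hs
  have hsum : ∑ i, m i = r := by
    have h1 := h.resonance_le hN0 hr hκ
    rw [sum_congr rfl fun i _ => hu i (κ i)] at h1
    exact le_antisymm h1 hs
  have hpos : ∀ i, 0 < m i := fun i => by
    rw [← hu i ⟨0, hr0⟩]
    exact cnt_self_pos _
  -- two classes are impossible
  have hno2 : ∀ x, 2 * m x ≠ r := by
    intro x
    have h1 := (h.swap x).no_two hN hr (fun i => m (Equiv.swap 0 x i)) (fun i l => hu _ l)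
      (by rw [Equiv.sum_comp (Equiv.swap 0 x) m]; exact hsum)
      (κ := fun i => κ (Equiv.swap 0 x i)) (by
        rw [Equiv.sum_comp (Equiv.swap 0 x) (fun i => E i (κ i))]
        exact hκ)
    rw [Equiv.swap_apply_left] at h1
    exact h1
  have hrep : ∀ x, ∃ v : Fin 3 → ℤ, (∀ j, cnt N (E x) (v j) = m x) ∧
      (∀ j j', j ≠ j' → ¬ (N : ℤ) ∣ v j - v j') := by
    intro x
    rcases class_cases (N := N) (E x) with h1 | ⟨l0, l1, -, h1, -⟩ | h1
    · exfalso
      have h2 := h1 ⟨0, hr0⟩
      rw [hu] at h2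
      have h3 := hpos 0
      have h4 := hpos 1
      have h5 := hpos 2
      rw [Fin.sum_univ_three] at hsum
      have hx : x = 0 ∨ x = 1 ∨ x = 2 := by
        fin_cases x <;> simp
      rcases hx with rfl | rfl | rfl <;> omega
    · exfalso
      rw [hu, hu] at h1
      exact hno2 x (by omega)
    · obtain ⟨i, j, hi, hj, hij⟩ := h1 ⟨0, hr0⟩
      refine ⟨![E x ⟨0, hr0⟩, E x i, E x j], ?_, ?_⟩
      · intro j'
        fin_cases j'
        · exact hu x _
        · exact hu x _
        · exact hu x _
      · intro a b hab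
        fin_cases a <;> fin_cases b <;>
          first
            | exact absurd rfl hab
            | exact hi
            | exact hj
            | exact hij
            | exact not_dvd_symm hi
            | exact not_dvd_symm hj
            | exact not_dvd_symm hij
  choose v hv hne using hrep
  have h3le : ∀ x, 3 * m x ≤ r := by
    intro x
    have h1 := card_union_of_disjoint (disj_class (f := E x) (hne x 0 1 (by decide)))
    have h2 : Disjoint ((univ.filter fun l => (N : ℤ) ∣ E x l - v x 0) ∪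
        (univ.filter fun l => (N : ℤ) ∣ E x l - v x 1))
        (univ.filter fun l => (N : ℤ) ∣ E x l - v x 2) := by
      rw [disjoint_union_left]
      exact ⟨disj_class (hne x 0 2 (by decide)), disj_class (hne x 1 2 (by decide))⟩
    have h4 := card_union_of_disjoint h2
    have e0 := hv x 0
    have e1 := hv x 1
    have e2 := hv x 2
    unfold cnt at e0 e1 e2
    have h5 := card_le_univ (((univ.filter fun l => (N : ℤ) ∣ E x l - v x 0) ∪
        (univ.filter fun l => (N : ℤ) ∣ E x l - v x 1)) ∪
        (univ.filter fun l => (N : ℤ) ∣ E x l - v x 2))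
    rw [h4, h1, e0, e1, e2, Fintype.card_fin] at h5
    omega
  have h3eq : ∀ x, 3 * m x = r := by
    have h1 := h3le 0
    have h2 := h3le 1
    have h3 := h3le 2
    rw [Fin.sum_univ_three] at hsum
    intro x
    have hx : x = 0 ∨ x = 1 ∨ x = 2 := by
      fin_cases x <;> simp
    rcases hx with rfl | rfl | rfl <;> omega
  have hfill : ∀ x l, ∃ j, (N : ℤ) ∣ E x l - v x j := fun x l => three_fill (h3eq x) (hv x) (hne x) l
  refine ⟨v, hfill, fun i j => by rw [hv]; exact h3eq i, ?_⟩
  -- the inequalities in rank three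
  obtain ⟨F, hF⟩ := h.sum hN0
  have hSG : SG N v := by
    intro u hu' V hV
    have h1 := sg_all (m := 2) hr hN0 (fun x l => E (idx x) l) F (by
      rw [sum_idx (fun i => ∑ l, E i l)]
      exact hF) u (by
        have h2 := h u hu'
        have e2 : (fun (l : Fin r) => (u : ℝ) * (-((E (idx none) l : ℤ) : ℝ) / N)) =
            fun l => (u : ℝ) * (((-E 2 l : ℤ) : ℝ) / N) := by
          funext l
          simp only [idx]
          push_cast
          ring
        rw [e2]
        exact h2) (fun x => V (idx x)) (by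
      rw [sum_idx V, sum_idx (fun i => ∑ l, (u * E i l - V i) % (N : ℤ))]
      have h3 : ∀ i, ∑ l, (u * E i l - V i) % (N : ℤ) = m 0 * ∑ j, (u * v i j - V i) % (N : ℤ) := by
        intro i
        rw [sum_classes (hne i) (hfill i) (fun z => (u * z - V i) % (N : ℤ)) (fun a b hab => by
          refine emod_congr ?_
          have : u * a - V i - (u * b - V i) = u * (a - b) := by ring
          rw [this]
          exact hab.mul_left u), mul_sum]
        refine sum_congr rfl fun j _ => ?_
        have h4 : m i = m 0 := by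
          have h5 := h3eq i
          have h6 := h3eq 0
          omega
        rw [hv, h4]
      rw [sum_congr rfl fun i _ => h3 i, ← mul_sum]
      have h4 : (r : ℤ) = 3 * m 0 := by exact_mod_cast (h3eq 0).symm
      have h5 : (0 : ℤ) < m 0 := by exact_mod_cast hpos 0
      rw [h4]
      nlinarith)
    rwa [sum_idx V] at h1
  choose κ' hκ' using fun i => hfill i (κ i)
  refine main_res hN hSG κ' ?_
  have h1 : (N : ℤ) ∣ ∑ i, (E i (κ i) - v i (κ' i)) := dvd_sum fun i _ => hκ' i
  rw [sum_sub_distrib] at h1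
  exact (dvd_sub_right hκ).1 h1

end Pool.Agent.R340.MI
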