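import Pool.Agent.R340.MI.Sym
import Pool.Agent.R340.MI.Count
import Pool.Agent.R340.HK.Final
import Pool.Agent.R340.P3.Main

set_option autoImplicit false

/-!
Three points and exponents of prime denominators: every choice of one exponent for each point has
total multiplicity at least the rank.
-/

open Finset

namespace Pool.Agent.R340.MI

open Pool.Agent.Y227.SS Pool.Agent.TH571.PCV
open Pool.Agent.R340.HK (cnt cnt_congr cnt_of exists_of_cnt cnt_le core_contra two_classes)
open Pool.Agent.R340.P3 (SG Same main_res)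

variable {r N : ℕ}

/-- The number of pairs of congruent exponents. -/
def prs (N : ℕ) (f : Fin r → ℤ) : ℕ := ∑ l, cnt N f (f l)

lemma den_iff (hN : 0 < N) (z : ℤ) : (((z : ℤ) : ℚ) / N).den = 1 ↔ (N : ℤ) ∣ z := by
  have hNq : (N : ℚ) ≠ 0 := by exact_mod_cast hN.ne'
  constructor
  · intro h
    have h1 := Rat.coe_int_num_of_den_eq_one h
    refine ⟨(((z : ℤ) : ℚ) / N).num, ?_⟩
    have h2 : ((z : ℤ) : ℚ) = ((N * (((z : ℤ) : ℚ) / N).num : ℤ) : ℚ) := by
      push_cast
      rw [h1]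
      field_simp
    exact_mod_cast h2
  · rintro ⟨k, hk⟩
    have h1 : ((z : ℤ) : ℚ) / N = ((k : ℤ) : ℚ) := by
      rw [hk]
      push_cast
      field_simp
    rw [h1]
    exact Rat.den_intCast k

/-- The inequality for one exponent without resonances, for a prime number `N`. -/
theorem Good.count (hN : N.Prime) {E : Fin 3 → Fin r → ℤ} (h : Good N E) {x y z : Fin 3}
    (hxy : x ≠ y) (hyz : y ≠ z) (hxz : x ≠ z) (k : Fin r)
    (hk : ∀ i j, ¬ (N : ℤ) ∣ E x k + E y i + E z j) :
    prs N (E y) + prs N (E z) + 2 * r * cnt N (E x) (E x k) ≤ r ^ 2 + prs N (E x) ∧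
    ((∃ i j, ¬ (N : ℤ) ∣ E x k - E x i ∧ ¬ (N : ℤ) ∣ E x k - E x j ∧ ¬ (N : ℤ) ∣ E x i - E x j) →
      prs N (E y) + prs N (E z) + 2 * r * cnt N (E x) (E x k) < r ^ 2 + prs N (E x)) := by
  classical
  have hN0 := hN.pos
  have hNq : (N : ℚ) ≠ 0 := by exact_mod_cast hN0.ne'
  let lam : Fin 3 → Fin r → ℚ := fun i l => (E i l : ℚ) / N
  have e1 : ∀ x i j, lam x i - lam x j = ((E x i - E x j : ℤ) : ℚ) / N := by
    intro x i j
    simp only [lam]
    push_cast
    ring
  have e2 : ∀ i j, lam x k + lam y i + lam z j = ((E x k + E y i + E z j : ℤ) : ℚ) / N := by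
    intro i j
    simp only [lam]
    push_cast
    ring
  have hsw : ∀ (f : Fin r → ℤ) (i j : Fin r), (N : ℤ) ∣ f i - f j ↔ (N : ℤ) ∣ f j - f i := by
    intro f i j
    rw [← dvd_neg, neg_sub]
  have hp : ∀ x, pairs lam x = prs N (E x) := by
    intro x
    unfold pairs prs cnt
    rw [card_filter, Fintype.sum_prod_type' (fun i j => if (lam x i - lam x j).den = 1 then 1 else 0)]
    refine sum_congr rfl fun i _ => ?_
    rw [card_filter]
    refine sum_congr rfl fun j _ => ?_
    simp only [e1, den_iff hN0, hsw (E x) i j]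
  have hm : mult lam x k = cnt N (E x) (E x k) := by
    unfold mult cnt
    congr 1
    ext l
    rw [mem_filter, mem_filter, e1, den_iff hN0, hsw (E x) k l]
  have hs : sums lam x y z k = 0 := by
    unfold sums
    rw [card_eq_zero, filter_eq_empty_iff]
    intro t _
    rw [e2, den_iff hN0]
    exact hk t.1 t.2
  have key := fun hv => h.not_violated hN0 (lam := lam) (fun i l => rfl) hxy hyz hxz k
    (violated_prime hN lam x y z k (fun i l l' => ⟨E i l - E i l', by
      rw [e1]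
      field_simp⟩) (fun l l' => ⟨E x k + E y l + E z l', by
      rw [e2]
      field_simp⟩) hv)
  rw [hp, hp, hp, hm, hs] at key
  refine ⟨?_, ?_⟩
  · by_contra hlt
    exact key (Or.inl (by omega))
  · rintro ⟨i, j, hi, hj, hij⟩
    by_contra hlt
    refine key (Or.inr ⟨by omega, i, j, ?_, ?_, ?_⟩)
    · rw [e1, Ne, den_iff hN0]
      exact hi
    · rw [e1, Ne, den_iff hN0]
      exact hj
    · rw [e1, Ne, den_iff hN0]
      exact hij

section classes

variable {n : ℕ} {f : Fin n → ℤ}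

lemma cnt_self_pos (l : Fin n) : 0 < cnt N f (f l) :=
  card_pos.2 ⟨l, mem_filter.2 ⟨mem_univ _, by simp⟩⟩

lemma prs_ge {m : ℕ} (hm : ∀ l, m ≤ cnt N f (f l)) : n * m ≤ prs N f := by
  unfold prs
  have := Finset.card_nsmul_le_sum univ (fun l => cnt N f (f l)) m fun l _ => hm l
  rwa [card_univ, Fintype.card_fin, smul_eq_mul] at this

lemma prs_le {m : ℕ} (hm : ∀ l, cnt N f (f l) ≤ m) : prs N f ≤ n * m := by
  unfold prs
  have := Finset.sum_le_card_nsmul univ (fun l => cnt N f (f l)) m fun l _ => hm l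
  rwa [card_univ, Fintype.card_fin, smul_eq_mul] at this

lemma not_dvd_symm {a b : ℤ} (h : ¬ (N : ℤ) ∣ a - b) : ¬ (N : ℤ) ∣ b - a := fun h' => h (by
  have := (dvd_neg).2 h'
  rwa [neg_sub] at this)

/-- Disjoint classes. -/
lemma disj_class {u v : ℤ} (h : ¬ (N : ℤ) ∣ u - v) :
    Disjoint (univ.filter fun l => (N : ℤ) ∣ f l - u) (univ.filter fun l => (N : ℤ) ∣ f l - v) := by
  rw [disjoint_left]
  intro l h1 h2
  apply h
  have h3 := dvd_sub (mem_filter.1 h2).2 (mem_filter.1 h1).2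
  have h4 : f l - v - (f l - u) = u - v := by ring
  rwa [h4] at h3

/-- One class, two classes or at least three classes. -/
lemma class_cases (f : Fin n → ℤ) :
    (∀ l, cnt N f (f l) = n) ∨
    (∃ l0 l1, ¬ (N : ℤ) ∣ f l1 - f l0 ∧ cnt N f (f l0) + cnt N f (f l1) = n ∧
      ∀ l, (N : ℤ) ∣ f l - f l0 ∨ (N : ℤ) ∣ f l - f l1) ∨
    (∀ k, ∃ i j, ¬ (N : ℤ) ∣ f k - f i ∧ ¬ (N : ℤ) ∣ f k - f j ∧ ¬ (N : ℤ) ∣ f i - f j) := by
  classical
  by_cases h3 : ∀ k, ∃ i j, ¬ (N : ℤ) ∣ f k - f i ∧ ¬ (N : ℤ) ∣ f k - f j ∧ ¬ (N : ℤ) ∣ f i - f j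
  · exact Or.inr (Or.inr h3)
  push Not at h3
  obtain ⟨k, hk⟩ := h3
  by_cases h1 : ∀ l, (N : ℤ) ∣ f k - f l
  · left
    intro l
    unfold cnt
    rw [filter_true_of_mem, card_univ, Fintype.card_fin]
    intro l' _
    have h4 := dvd_sub (h1 l) (h1 l')
    have h5 : f k - f l - (f k - f l') = f l' - f l := by ring
    rwa [h5] at h4
  · push Not at h1
    obtain ⟨l1, hl1⟩ := h1
    right
    left
    have hor : ∀ l, (N : ℤ) ∣ f l - f k ∨ (N : ℤ) ∣ f l - f l1 := by
      intro l
      by_cases h4 : (N : ℤ) ∣ f l - f k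
      · exact Or.inl h4
      · right
        have h5 := hk l1 l hl1 (not_dvd_symm h4)
        have h6 := (dvd_neg).2 h5
        rwa [neg_sub] at h6
    refine ⟨k, l1, not_dvd_symm hl1, ?_, hor⟩
    have h4 := card_union_of_disjoint (disj_class (f := f) hl1)
    have h5 : (univ.filter fun l => (N : ℤ) ∣ f l - f k) ∪ (univ.filter fun l => (N : ℤ) ∣ f l - f l1) =
        univ := by
      ext l
      simp only [mem_union, mem_filter, mem_univ, true_and, iff_true]
      exact hor l
    rw [h5, card_univ, Fintype.card_fin] at h4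
    unfold cnt
    omega

/-- Two classes: many pairs. -/
lemma prs_two {l0 l1 : Fin n} (hn : cnt N f (f l0) + cnt N f (f l1) = n)
    (hor : ∀ l, (N : ℤ) ∣ f l - f l0 ∨ (N : ℤ) ∣ f l - f l1) (hne : ¬ (N : ℤ) ∣ f l1 - f l0) :
    n ^ 2 ≤ 2 * prs N f := by
  classical
  have h1 : prs N f = cnt N f (f l0) ^ 2 + cnt N f (f l1) ^ 2 := by
    unfold prs
    have h2 : (univ : Finset (Fin n)) = (univ.filter fun l => (N : ℤ) ∣ f l - f l0) ∪
        (univ.filter fun l => (N : ℤ) ∣ f l - f l1) := by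
      ext l
      simp only [mem_union, mem_filter, mem_univ, true_and, true_iff]
      exact hor l
    have h3 : ∀ l0 : Fin n, ∑ l ∈ univ.filter (fun l => (N : ℤ) ∣ f l - f l0), cnt N f (f l) =
        cnt N f (f l0) ^ 2 := by
      intro l0
      rw [sum_congr rfl fun l hl => cnt_congr (f := f) (mem_filter.1 hl).2, sum_const, smul_eq_mul, sq]
      rfl
    conv_lhs => rw [h2]
    rw [sum_union (disj_class (not_dvd_symm hne)), h3, h3]
  rw [h1]
  have h4 : (n : ℤ) = cnt N f (f l0) + cnt N f (f l1) := by exact_mod_cast hn.symm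
  have h5 : (n : ℤ) ^ 2 ≤ 2 * ((cnt N f (f l0) : ℤ) ^ 2 + (cnt N f (f l1) : ℤ) ^ 2) := by
    rw [h4]
    nlinarith [sq_nonneg ((cnt N f (f l0) : ℤ) - cnt N f (f l1))]
  exact_mod_cast h5

end classes

/-- A class of maximal multiplicity. -/
lemma exists_max_class (hr : 0 < r) (f : Fin r → ℤ) : ∃ k, ∀ l, cnt N f (f l) ≤ cnt N f (f k) := by
  obtain ⟨k, -, hk⟩ := exists_max_image (univ : Finset (Fin r)) (fun l => cnt N f (f l))
    ⟨⟨0, hr⟩, mem_univ _⟩
  exact ⟨k, fun l => hk l (mem_univ _)⟩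

/-- A nonresonant class of maximal multiplicity. -/
lemma Good.count_max (hN : N.Prime) {E : Fin 3 → Fin r → ℤ} (h : Good N E)
    {x y z : Fin 3} (hxy : x ≠ y) (hyz : y ≠ z) (hxz : x ≠ z) {k : Fin r}
    (hmax : ∀ l, cnt N (E x) (E x l) ≤ cnt N (E x) (E x k))
    (hk : ∀ i j, ¬ (N : ℤ) ∣ E x k + E y i + E z j) :
    prs N (E y) + prs N (E z) + r * cnt N (E x) (E x k) ≤ r ^ 2 ∧
    ((∃ i j, ¬ (N : ℤ) ∣ E x k - E x i ∧ ¬ (N : ℤ) ∣ E x k - E x j ∧ ¬ (N : ℤ) ∣ E x i - E x j) →
      prs N (E y) + prs N (E z) + r * cnt N (E x) (E x k) < r ^ 2) := by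
  have h1 := h.count hN hxy hyz hxz k hk
  have h2 := prs_le hmax
  refine ⟨?_, fun h3 => ?_⟩
  · have := h1.1
    nlinarith
  · have := h1.2 h3
    nlinarith

/-- Without resonances the multiplicities are small. -/
theorem Good.nonres (hN : N.Prime) (hr : 0 < r) {E : Fin 3 → Fin r → ℤ} (h : Good N E)
    (m : Fin 3 → ℕ) (hm : ∀ i l, m i ≤ cnt N (E i) (E i l)) (hs : r ≤ ∑ i, m i) :
    ∃ κ : Fin 3 → Fin r, (N : ℤ) ∣ ∑ i, E i (κ i) := by
  classical
  by_contra hcon
  push Not at hcon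
  have hnr : ∀ {x y z : Fin 3}, x ≠ y → y ≠ z → x ≠ z → ∀ k i j,
      ¬ (N : ℤ) ∣ E x k + E y i + E z j := by
    intro x y z hxy hyz hxz k i j hd
    apply hcon (fun w => if w = x then k else if w = y then i else j)
    have h1 : ∀ w : Fin 3, w = x ∨ w = y ∨ w = z := by
      clear hd
      revert x y z
      decide
    have h2 : ∑ w, E w (if w = x then k else if w = y then i else j) = E x k + E y i + E z j := by
      have h3 : (univ : Finset (Fin 3)) = {x, y, z} := by
        ext w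
        simp only [mem_univ, mem_insert, mem_singleton, true_iff]
        exact h1 w
      rw [h3, sum_insert (by simp [hxy, hxz]), sum_insert (by simp [hyz]), sum_singleton,
        if_pos rfl, if_neg hxy.symm, if_pos rfl, if_neg hxz.symm, if_neg hyz.symm]
      ring
    rw [h2]
    exact hd
  rw [Fin.sum_univ_three] at hs
  have hP : ∀ i, r * m i ≤ prs N (E i) := fun i => prs_ge (hm i)
  have main : ∀ x y z : Fin 3, x ≠ y → y ≠ z → x ≠ z → r ≤ m x + m y + m z →
      (∀ k, ∃ i j, ¬ (N : ℤ) ∣ E x k - E x i ∧ ¬ (N : ℤ) ∣ E x k - E x j ∧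
        ¬ (N : ℤ) ∣ E x i - E x j) → False := by
    intro x y z hxy hyz hxz hs h3
    obtain ⟨k, hk⟩ := exists_max_class (N := N) hr (E x)
    have h4 := (h.count_max hN hxy hyz hxz hk (hnr hxy hyz hxz k)).2 (h3 k)
    have h5 := hm x k
    have h6 := hP y
    have h7 := hP z
    nlinarith
  rcases class_cases (N := N) (E 0) with h0 | h0 | h0
  · -- one class
    have k : Fin r := ⟨0, hr⟩
    have h1 := (h.count_max hN (x := 0) (y := 1) (z := 2) (by decide) (by decide) (by decide)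
      (k := k) (fun l => by rw [h0, h0]) (hnr (by decide) (by decide) (by decide) k)).1
    rw [h0] at h1
    have h2 := cnt_self_pos (N := N) (f := E 1) k
    have h3 := prs_ge (N := N) (f := E 1) (m := 1) fun l => cnt_self_pos l
    nlinarith
  · rcases class_cases (N := N) (E 1) with h1 | h1 | h1
    · have k : Fin r := ⟨0, hr⟩
      have h1' := (h.count_max hN (x := 1) (y := 0) (z := 2) (by decide) (by decide) (by decide)
        (k := k) (fun l => by rw [h1, h1]) (hnr (by decide) (by decide) (by decide) k)).1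
      rw [h1] at h1'
      have h3 := prs_ge (N := N) (f := E 0) (m := 1) fun l => cnt_self_pos l
      nlinarith
    · obtain ⟨k, hk⟩ := exists_max_class (N := N) hr (E 2)
      have h4 := (h.count_max hN (x := 2) (y := 0) (z := 1) (by decide) (by decide) (by decide) hk
        (hnr (by decide) (by decide) (by decide) k)).1
      obtain ⟨a0, a1, ha, hb, hc⟩ := h0
      obtain ⟨b0, b1, ha', hb', hc'⟩ := h1
      have h5 := prs_two hb hc ha
      have h6 := prs_two hb' hc' ha'
      have h7 := cnt_self_pos (N := N) (f := E 2) k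
      have h8 : 0 < r * cnt N (E 2) (E 2 k) := Nat.mul_pos hr h7
      omega
    · exact main 1 0 2 (by decide) (by decide) (by decide) (by omega) h1
  · exact main 0 1 2 (by decide) (by decide) (by decide) (by omega) h0

/-- At a resonance the multiplicities are minimal. -/
lemma Good.cnt_eq (hN : 0 < N) (hr : 2 ≤ r) {E : Fin 3 → Fin r → ℤ} (h : Good N E)
    (m : Fin 3 → ℕ) (hm : ∀ i l, m i ≤ cnt N (E i) (E i l)) (hs : r ≤ ∑ i, m i)
    {κ : Fin 3 → Fin r} (hκ : (N : ℤ) ∣ ∑ i, E i (κ i)) (i : Fin 3) :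
    cnt N (E i) (E i (κ i)) = m i := by
  have h1 := h.resonance_le hN hr hκ
  have h2 := sum_le_sum fun (i : Fin 3) (_ : i ∈ univ) => hm i (κ i)
  by_contra hne
  have h3 := sum_lt_sum (s := (univ : Finset (Fin 3))) (fun i _ => hm i (κ i)) ⟨i, mem_univ i,
    lt_of_le_of_ne (hm i (κ i)) (Ne.symm hne)⟩
  omega

/-- All the multiplicities at one point are equal. -/
theorem Good.uniform (hN : N.Prime) (hr : 2 ≤ r) {E : Fin 3 → Fin r → ℤ} (h : Good N E)
    (m : Fin 3 → ℕ) (hm : ∀ i l, m i ≤ cnt N (E i) (E i l)) (hs : r ≤ ∑ i, m i) (x : Fin 3)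
    (l : Fin r) : cnt N (E x) (E x l) = m x := by
  by_contra hne
  obtain ⟨k, hk⟩ := exists_max_class (N := N) (by omega) (E x)
  have h1 : m x < cnt N (E x) (E x k) :=
    lt_of_lt_of_le (lt_of_le_of_ne (hm x l) (Ne.symm hne)) (hk l)
  obtain ⟨y, z, hxy, hyz, hxz, hun⟩ : ∃ y z : Fin 3, x ≠ y ∧ y ≠ z ∧ x ≠ z ∧
      (univ : Finset (Fin 3)) = {x, y, z} := by
    clear hne h1 hk k l
    revert x
    decide
  have hnr : ∀ i j, ¬ (N : ℤ) ∣ E x k + E y i + E z j := by
    intro i j hd
    have h2 := h.cnt_eq hN.pos hr m hm hs (κ := fun w => if w = x then k else if w = y then i else j)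
      (by
        rw [hun, sum_insert (by simp [hxy, hxz]), sum_insert (by simp [hyz]), sum_singleton,
          if_pos rfl, if_neg hxy.symm, if_pos rfl, if_neg hxz.symm, if_neg hyz.symm]
        have : E x k + (E y i + E z j) = E x k + E y i + E z j := by ring
        rw [this]
        exact hd) x
    rw [if_pos rfl] at h2
    omega
  have h4 := (h.count_max hN hxy hyz hxz hk hnr).1
  have h5 := prs_ge (hm y)
  have h6 := prs_ge (hm z)
  have h7 : ∑ i, m i = m x + m y + m z := by
    rw [hun, sum_insert (by simp [hxy, hxz]), sum_insert (by simp [hyz]), sum_singleton]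
    ring
  rw [h7] at hs
  have hr0 : 0 < r := by omega
  nlinarith

end Pool.Agent.R340.MI
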